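import Pool.Agent.Lib.MP_9f2731_nt.QL.Pw.Spec

/-!
MP_9f2731_nt, QL/Pw/ApW: primes 1 modulo q, the interface (helper84, after GP/Ap/ApZ)
-/

namespace Pool.Agent.Lib.MP_9f2731_nt.QL.Pw

open Finset Pool.Agent.Lib.BV
open Pool.Agent.Lib.MP_9f2731_nt.GP.Ap
open Pool.Agent.Lib.MP_9f2731_nt.QL

private theorem ApW_card (X q : ℕ) (hq1 : 1 ≤ q) :
    ((Icc 1 (q * X + 1)).filter (fun p => p.Prime ∧ p ≡ 1 [MOD q])).card ≤
      ((Icc 1 X).filter (fun b => (q * b + 1).Prime)).card := by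
  refine (Finset.card_le_card ?_).trans
    (Finset.card_image_le (s := (Icc 1 X).filter (fun b => (q * b + 1).Prime))
      (f := fun b => q * b + 1))
  intro p hp
  obtain ⟨h1, h2, h3⟩ := Finset.mem_filter.mp hp
  obtain ⟨h4, h5⟩ := Finset.mem_Icc.mp h1
  have h6 : 1 < p := h2.one_lt
  have h7 : q ∣ p - 1 := (Nat.modEq_iff_dvd' h6.le).mp h3.symm
  obtain ⟨b, hb⟩ := h7
  have h8 : p = q * b + 1 := by omega
  have hb1 : 1 ≤ b := by
    rcases Nat.eq_zero_or_pos b with h | h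
    · rw [h, mul_zero] at h8
      omega
    · exact h
  have hbX : b ≤ X := by
    have : q * b ≤ q * X := by omega
    exact Nat.le_of_mul_le_mul_left this hq1
  refine Finset.mem_image.mpr ⟨b, Finset.mem_filter.mpr ⟨Finset.mem_Icc.mpr ⟨hb1, hbX⟩, ?_⟩,
    h8.symm⟩
  rw [← h8]
  exact h2

theorem pApW (h1 : ExGStmt) (h2 : ApGStmt) : ApWStmt := by
  obtain ⟨c3, hc3, hE⟩ := h1
  obtain ⟨x0, hx0⟩ := h2 c3 hc3
  refine ⟨1 / 200, by norm_num, fun w1 => ?_⟩
  obtain ⟨y0, hy0⟩ := hE w1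
  obtain ⟨T, hT⟩ : ∃ T : ℝ, T = max 2 y0 := ⟨_, rfl⟩
  have hT2 : 2 ≤ T := by rw [hT]; exact le_max_left _ _
  have hTy : y0 ≤ T := by rw [hT]; exact le_max_right _ _
  refine ⟨max x0 (Real.exp (T ^ 200)), fun X hX => ?_⟩
  have hX1 : x0 ≤ X := (le_max_left _ _).trans hX
  have hX2 : Real.exp (T ^ 200) ≤ X := (le_max_right _ _).trans hX
  have hX0 : (0 : ℝ) < X := (Real.exp_pos _).trans_le hX2
  obtain ⟨L, hL⟩ : ∃ L : ℝ, L = Real.log X := ⟨_, rfl⟩
  have hLc : T ^ 200 ≤ L := by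
    rw [hL, Real.le_log_iff_exp_le hX0]
    exact hX2
  have hT0 : 0 < T := by linarith
  have hL0 : 0 < L := (by positivity : 0 < T ^ 200).trans_le hLc
  obtain ⟨y, hy⟩ : ∃ y : ℝ, y = L ^ ((1 : ℝ) / 200) := ⟨_, rfl⟩
  have hy200 : L = y ^ 200 := by
    rw [hy, ← Real.rpow_natCast, ← Real.rpow_mul hL0.le]
    norm_num
  have hypos : 0 < y := by rw [hy]; exact Real.rpow_pos_of_pos hL0 _
  have hyT : T ≤ y := by
    have : T ^ 200 ≤ y ^ 200 := by rw [← hy200]; exact hLc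
    exact le_of_pow_le_pow_left₀ (by norm_num) hypos.le this
  have hy2 : 2 ≤ y := hT2.trans hyT
  have hy1 : 1 ≤ y := by linarith
  have hL100 : L ^ ((1 : ℝ) / 100) = y ^ 2 := by
    rw [hy, ← Real.rpow_natCast, ← Real.rpow_mul hL0.le]
    norm_num
  have hyL : 1 + y ≤ L := by
    have e1 : y ^ 2 ≤ y ^ 200 := pow_le_pow_right₀ hy1 (by norm_num)
    rw [hy200]
    nlinarith
  have hX3 : (1 : ℝ) ≤ X := by
    have : (1 : ℝ) ≤ Real.exp (T ^ 200) := Real.one_le_exp (by positivity)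
    linarith
  obtain ⟨p0, hp0, hw, hp⟩ := hy0 y (hTy.trans hyT)
  refine ⟨p0, hp0, hw, fun q hq1 hpq hlq => ?_⟩
  rw [← hL, ← hy] at hlq
  have hqr1 : (1 : ℝ) ≤ (q : ℝ) := by exact_mod_cast hq1
  obtain ⟨x, hx⟩ : ∃ x : ℝ, x = ((q * X + 1 : ℕ) : ℝ) := ⟨_, rfl⟩
  have hx' : x = q * X + 1 := by rw [hx]; push_cast; ring
  have hXx : (X : ℝ) ≤ x := by
    have h1 := mul_le_mul_of_nonneg_right hqr1 hX0.le
    rw [hx']
    linarith
  have hLx : L ≤ Real.log x := by rw [hL]; exact Real.log_le_log hX0 hXx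
  have hyx : y ≤ (Real.log x) ^ ((1 : ℝ) / 100) := by
    refine le_trans ?_ (Real.rpow_le_rpow hL0.le hLx (by norm_num))
    rw [hL100]
    nlinarith
  have h1 := hx0 x y q (hX1.trans hXx) hy1 hyx hq1 hlq (by
    intro q1 _ χ1 hq1q hq12 hχ1 hsq
    refine hp q1 χ1 hq12 ?_ (fun h => hpq (h.trans hq1q)) hχ1 hsq
    refine le_trans (Real.log_le_log (by have : (2 : ℝ) ≤ q1 := by exact_mod_cast hq12
                                         linarith) ?_) hlq
    exact_mod_cast Nat.le_of_dvd hq1 hq1q)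
  have hfl : ⌊x⌋₊ = q * X + 1 := by rw [hx, Nat.floor_natCast]
  rw [hfl] at h1
  have h2 := ApW_card X q hq1
  have h3 : (((Icc 1 (q * X + 1)).filter (fun p => p.Prime ∧ p ≡ 1 [MOD q])).card : ℝ) ≤
      (((Icc 1 X).filter (fun b => (q * b + 1).Prime)).card : ℝ) := by exact_mod_cast h2
  refine le_trans ?_ (h1.trans h3)
  have hφ : (0 : ℝ) < (q.totient : ℝ) := by exact_mod_cast Nat.totient_pos.mpr hq1
  have hlx : Real.log x ≤ 2 * L := by
    have h4 : x ≤ 2 * q * X := by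
      rw [hx']
      have h5 : 1 ≤ (q : ℝ) * X := one_le_mul_of_one_le_of_one_le hqr1 hX3
      linarith
    have h5 : Real.log x ≤ Real.log (2 * q * X) := Real.log_le_log (by linarith) h4
    rw [Real.log_mul (by positivity) (by positivity), Real.log_mul (by positivity) (by positivity),
      ← hL] at h5
    have h6 : Real.log 2 ≤ 1 := by
      have := Real.log_two_lt_d9
      linarith
    linarith
  have hlx0 : 0 < Real.log x := by linarith
  rw [← hL]
  have hqX : 0 ≤ (q : ℝ) * X := by positivity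
  calc (1 / 4 : ℝ) * (((q : ℝ) / q.totient) * X / L) =
        (q * X) / (2 * (q.totient : ℝ) * (2 * L)) := by
        field_simp
        ring
    _ ≤ (q * X) / (2 * (q.totient : ℝ) * Real.log x) :=
        div_le_div_of_nonneg_left hqX (by positivity)
          (mul_le_mul_of_nonneg_left hlx (by positivity))
    _ ≤ x / (2 * (q.totient : ℝ) * Real.log x) := by
        apply div_le_div_of_nonneg_right _ (by positivity)
        rw [hx']
        linarith

end Pool.Agent.Lib.MP_9f2731_nt.QL.Pw
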