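import Pool.Agent.Lib.MP_9f2731_nt.QL.Pw.Spec

/-!
MP_9f2731_nt, QL/Pw/ExG: the exceptional prime (helper84)
-/

namespace Pool.Agent.Lib.MP_9f2731_nt.QL.Pw

open Finset Pool.Agent.Lib.BV
open Pool.Agent.Lib.MP_9f2731_nt.GP.Ap
open Pool.Agent.Lib.MP_9f2731_nt.QL

private theorem ExG_rad (w D : ℕ) (h : ∀ p : ℕ, p.Prime → p ∣ D → p ≤ w) :
    ∏ p ∈ D.primeFactors, p ≤ primorial w := by
  unfold primorial
  refine Finset.prod_le_prod_of_subset_of_one_le' (fun p hp => ?_) (fun p hp _ => ?_)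
  · have hp1 := Nat.prime_of_mem_primeFactors hp
    rw [Finset.mem_filter, Finset.mem_range]
    exact ⟨Nat.lt_succ_of_le (h p hp1 (Nat.dvd_of_mem_primeFactors hp)), hp1⟩
  · exact (Finset.mem_filter.1 hp).2.one_lt.le

theorem pExG (h1 : PgAStmt) (h2 : SieWStmt) (h3 : RlCStmt) : ExGStmt := by
  obtain ⟨c3, hc3, hP⟩ := h1
  obtain ⟨c, hc, hS⟩ := h2 1 one_pos
  refine ⟨c3, hc3, fun w1 => ?_⟩
  refine ⟨max 1 (1 + 8 * c3 * (primorial w1 : ℝ) / c), fun y hy => ?_⟩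
  have hy1 : 1 ≤ y := (le_max_left _ _).trans hy
  have hyP : 1 + 8 * c3 * (primorial w1 : ℝ) / c ≤ y := (le_max_right _ _).trans hy
  by_cases h : ∃ (D : ℕ) (_ : NeZero D) (χ : DirichletCharacter ℂ D), 2 ≤ D ∧ Real.log D ≤ y ∧
      χ.IsPrimitive ∧ χ ^ 2 = 1 ∧ ‖DirichletCharacter.LFunction χ 1‖ < c3 / y ^ 3
  · obtain ⟨D, _, χ, hD, hlD, hχ, hsq, hlt⟩ := h
    have hD0 : (0 : ℝ) < D := by
      have : (2 : ℝ) ≤ D := by exact_mod_cast hD
      linarith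
    have e1 := hS D χ (by omega) hχ hsq
    rw [Real.rpow_neg hD0.le, Real.rpow_one] at e1
    have e2 := (Complex.re_le_norm (DirichletCharacter.LFunction χ 1)).trans_lt hlt
    have e3 : c * (D : ℝ)⁻¹ < c3 / y ^ 3 := e1.trans_lt e2
    have hy3 : 0 < y ^ 3 := by positivity
    rw [← div_eq_mul_inv, div_lt_div_iff₀ hD0 hy3] at e3
    have e4 : y ≤ y ^ 3 := le_self_pow₀ hy1 (by norm_num)
    have e5 : 8 * c3 * (primorial w1 : ℝ) < c * y := by
      have : 8 * c3 * (primorial w1 : ℝ) / c < y := by linarith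
      rw [div_lt_iff₀ hc] at this
      linarith
    have e6 : c * y ≤ c * y ^ 3 := mul_le_mul_of_nonneg_left e4 hc.le
    have e7 : (8 : ℝ) * (primorial w1 : ℝ) < D := by
      by_contra hcon
      push Not at hcon
      have := mul_le_mul_of_nonneg_left hcon hc3.le
      linarith
    have e8 : 8 * primorial w1 < D := by exact_mod_cast e7
    have e9 : ∃ p : ℕ, p.Prime ∧ p ∣ D ∧ w1 < p := by
      by_contra hcon
      push Not at hcon
      have h4 := h3 D χ (by omega) hχ hsq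
      have h5 := ExG_rad w1 D hcon
      omega
    obtain ⟨p0, hp0, hpD, hw⟩ := e9
    refine ⟨p0, hp0, hw, fun q1 _ χ1 hq hlq hpq hχ1 hsq1 => ?_⟩
    have hne : q1 ≠ D := by
      rintro rfl
      exact hpq hpD
    have h6 := hP y q1 D χ1 χ hy1 hq hD hne hlq hlD hχ1 hχ hsq1 hsq
    rcases le_max_iff.1 h6 with h7 | h7
    · exact h7
    · exact absurd hlt (not_lt.2 h7)
  · obtain ⟨p0, hp1, hp2⟩ := Nat.exists_infinite_primes (w1 + 1)
    refine ⟨p0, hp2, by omega, fun q1 inst χ1 hq hlq _ hχ1 hsq1 => ?_⟩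
    by_contra hcon
    exact h ⟨q1, inst, χ1, hq, hlq, hχ1, hsq1, not_le.1 hcon⟩

end Pool.Agent.Lib.MP_9f2731_nt.QL.Pw
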