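import Pool.Agent.Lib.MP_9f2731_nt.QL.Pw.Spec
import Pool.Agent.Lib.MP_9f2731_nt.GP.Ap.FkP

/-!
MP_9f2731_nt, QL/Pw/FkG: bounds for the derivatives of L'/L (helper84, after GP/Ap/FkP)
-/

namespace Pool.Agent.Lib.MP_9f2731_nt.QL.Pw

open Finset Pool.Agent.Lib.BV
open Pool.Agent.Lib.MP_9f2731_nt.GP.Ap
open Pool.Agent.Lib.MP_9f2731_nt.QL

/-- comparison of the logarithms -/
theorem FkG_ell {q : ℕ} (hq : 2 ≤ q) {y : ℝ} (hy : Real.log q ≤ y) (t : ℝ) :
    ell q t ≤ y + Real.log (|t| + 2) := by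
  have hqr : (2 : ℝ) ≤ q := by exact_mod_cast hq
  have ht := abs_nonneg t
  unfold ell
  rw [Real.log_mul (by linarith) (by linarith)]
  linarith

theorem pFkG (h1 : SeEStmt) (h2 : Pool.Agent.Lib.BV.ChbStmt) (h3 : LoGStmt) (h4 : ReEStmt) :
    FkGStmt := by
  intro c3 hc3
  obtain ⟨c0, hc0, hLo⟩ := h3 c3 hc3
  obtain ⟨c, hcdef⟩ : ∃ c, c = min c0 1 := ⟨_, rfl⟩
  have hc : 0 < c := by rw [hcdef]; exact lt_min hc0 one_pos
  have hc1 : c ≤ 1 := by rw [hcdef]; exact min_le_right _ _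
  have hcc : c ≤ c0 := by rw [hcdef]; exact min_le_left _ _
  have hci : 1 ≤ 1 / c := by
    rw [le_div_iff₀ hc]; linarith
  refine ⟨6400 / c, ?_, fun j y q hq0 χ s hy hq hlq hχ hN hs1 hs2 => ?_⟩
  · rw [le_div_iff₀ hc]; linarith
  have hqr : (2 : ℝ) ≤ q := by exact_mod_cast hq
  have hbps : BPS (chf χ) q := h2.1 q χ (by omega) (FkP_ne_one hq hχ)
  have hell1 := FkP_ell hq s.im
  have hlow := hLo y q χ s hy hq hlq hχ hN hs1 hs2
  have hellL := FkG_ell hq hlq s.im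
  obtain ⟨L, hL⟩ : ∃ L, L = y + Real.log (|s.im| + 2) := ⟨_, rfl⟩
  rw [← hL] at hlow hellL
  have hL1 : 1 ≤ L := hell1.trans hellL
  obtain ⟨D0, hD0⟩ : ∃ D0, D0 = ‖DS (chf χ) 0 s‖ := ⟨_, rfl⟩
  rw [← hD0] at hlow
  have hD0n : 0 ≤ D0 := by rw [hD0]; exact norm_nonneg _
  have hL0 : 0 ≤ L := by linarith
  have hV : (0 : ℝ) ≤ 1600 / c * L ^ 14 := by positivity
  have hmain := h4 j q χ s (1600 / c * L ^ 14) (by omega) hs1 hV (by
    intro m hm1 hm2
    have hm := h1 m (chf χ) q s hqr hbps hs1 hs2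
    rw [← hD0]
    refine hm.trans ?_
    rw [mul_assoc]
    apply mul_le_mul_of_nonneg_left _ (Nat.cast_nonneg _)
    have e0 : (40 * ell q s.im) ^ (m + 1) ≤ (40 * L) ^ (m + 1) :=
      pow_le_pow_left₀ (by linarith) (by linarith) _
    refine e0.trans ?_
    have e1 : (1 : ℝ) ≤ (1 / c) * (D0 * L ^ 12) := by
      rw [one_div, ← div_eq_inv_mul, le_div_iff₀ hc]
      linarith
    have e2 : (40 : ℝ) ^ (m + 1) ≤ 1600 ^ m := by
      have : (1600 : ℝ) ^ m = 40 ^ (2 * m) := by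
        rw [pow_mul]; norm_num
      rw [this]
      exact pow_le_pow_right₀ (by norm_num) (by omega)
    have e3 : (1 / c) ≤ (1 / c) ^ m := by
      calc (1 / c) = (1 / c) ^ 1 := (pow_one _).symm
        _ ≤ (1 / c) ^ m := pow_le_pow_right₀ hci hm1
    have e4 : L ^ (m + 13) ≤ (L ^ 14) ^ m := by
      rw [← pow_mul]
      exact pow_le_pow_right₀ hL1 (by omega)
    calc (40 * L) ^ (m + 1) = 40 ^ (m + 1) * L ^ (m + 1) * 1 := by rw [mul_pow, mul_one]
      _ ≤ 40 ^ (m + 1) * L ^ (m + 1) * ((1 / c) * (D0 * L ^ 12)) := by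
          apply mul_le_mul_of_nonneg_left e1
          positivity
      _ = 40 ^ (m + 1) * (1 / c) * L ^ (m + 13) * D0 := by ring
      _ ≤ 1600 ^ m * (1 / c) ^ m * (L ^ 14) ^ m * D0 := by
          apply mul_le_mul_of_nonneg_right _ hD0n
          apply mul_le_mul _ e4 (by positivity) (by positivity)
          exact mul_le_mul e2 e3 (by positivity) (by positivity)
      _ = (1600 / c * L ^ 14) ^ m * D0 := by
          rw [← mul_pow, ← mul_pow]
          congr 2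
          ring)
  refine hmain.trans (le_of_eq ?_)
  rw [← hL]
  congr 2
  ring

end Pool.Agent.Lib.MP_9f2731_nt.QL.Pw
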