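import Pool.Agent.Lib.MP_9f2731_nt.QL.Pw.Spec
import Pool.Agent.Lib.MP_9f2731_nt.GP.Ap.FkP

/-!
MP_9f2731_nt, QL/Pw/LoG: lower bound for L(s, χ) in Re s > 1 (helper84, after Lib/BV/LoF)
-/

namespace Pool.Agent.Lib.MP_9f2731_nt.QL.Pw

open Finset Pool.Agent.Lib.BV
open Pool.Agent.Lib.MP_9f2731_nt.GP.Ap
open Pool.Agent.Lib.MP_9f2731_nt.QL

private theorem LoG_ell {q : ℕ} (hq : 2 ≤ q) {y : ℝ} (hy : Real.log q ≤ y) (t : ℝ) :
    ell q t ≤ y + Real.log (|t| + 2) := by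
  have hqr : (2 : ℝ) ≤ q := by exact_mod_cast hq
  have ht := abs_nonneg t
  unfold ell
  rw [Real.log_mul (by linarith) (by linarith)]
  linarith

private theorem LoG_one {q : ℕ} (hq : 2 ≤ q) {y : ℝ} (hy1 : 1 ≤ y) (hy : Real.log q ≤ y) :
    ell q 1 ≤ 3 * y := by
  have h1 := LoG_ell hq hy 1
  have h2 : Real.log (|(1 : ℝ)| + 2) ≤ 2 := by
    rw [abs_one]
    have := Real.log_le_sub_one_of_pos (show (0 : ℝ) < 1 + 2 by norm_num)
    linarith
  linarith

theorem pLoG (h1 : Lo1Stmt) (h2 : Lo2Stmt) (h3 : TrlStmt) (h4 : LnkStmt) : LoGStmt := by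
  intro c3 hc3
  obtain ⟨c1, hc1, H1⟩ := h1
  obtain ⟨c2, hc2, H2⟩ := h2
  obtain ⟨C, hC, H4⟩ := h4
  obtain ⟨κ, hκ⟩ : ∃ κ : ℝ, κ = min 1 (c3 / (2 * C)) := ⟨_, rfl⟩
  have hκ0 : 0 < κ := by rw [hκ]; exact lt_min one_pos (by positivity)
  have hκ1 : κ ≤ 1 := by rw [hκ]; exact min_le_left _ _
  have hκC : C * κ ≤ c3 / 2 := by
    have : κ ≤ c3 / (2 * C) := by rw [hκ]; exact min_le_right _ _
    calc C * κ ≤ C * (c3 / (2 * C)) := by gcongr
      _ = c3 / 2 := by field_simp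
  refine ⟨min (min c1 (c3 / 2)) (min (c2 * κ / 27) (κ / 36)), ?_, ?_⟩
  · exact lt_min (lt_min hc1 (by positivity)) (lt_min (by positivity) (by positivity))
  intro y q hq0 χ s hy hq hlq hχ hN hs1 hs2
  have hq' : (2 : ℝ) ≤ q := by exact_mod_cast hq
  have hne := FkP_ne_one hq hχ
  have hell1 := FkP_ell hq s.im
  have helle := LoG_ell hq hlq s.im
  have hE3 := LoG_one hq hy hlq
  have hE1 : 1 ≤ ell q 1 := FkP_ell hq 1
  have hye : y ≤ y + Real.log (|s.im| + 2) := by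
    have := Real.log_nonneg (show (1 : ℝ) ≤ |s.im| + 2 by have := abs_nonneg s.im; linarith)
    linarith
  obtain ⟨e, he⟩ : ∃ e : ℝ, e = y + Real.log (|s.im| + 2) := ⟨_, rfl⟩
  obtain ⟨E, hE⟩ : ∃ E : ℝ, E = ell q 1 := ⟨_, rfl⟩
  obtain ⟨l, hl⟩ : ∃ l : ℝ, l = ell q s.im := ⟨_, rfl⟩
  obtain ⟨N, hNd⟩ : ∃ N : ℝ, N = ‖DS (chf χ) 0 s‖ := ⟨_, rfl⟩
  rw [← he] at helle hye
  rw [← hE] at hE3 hE1
  rw [← hl] at hell1 helle
  rw [← he, ← hNd]
  have he1 : 1 ≤ e := hy.trans hye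
  have he0 : 0 < e := by linarith
  have hE0 : 0 < E := by linarith
  have hy0 : 0 < y := by linarith
  have hEe : E ≤ 3 * e := by linarith
  have hN0 : 0 ≤ N := by rw [hNd]; exact norm_nonneg _
  have hep : ∀ a b : ℕ, a ≤ b → e ^ a ≤ e ^ b := fun a b hab => pow_le_pow_right₀ he1 hab
  have hE2 : E ^ 2 ≤ 9 * e ^ 2 := by
    calc E ^ 2 ≤ (3 * e) ^ 2 := by gcongr
      _ = 9 * e ^ 2 := by ring
  have hy3 : y ^ 3 ≤ e ^ 3 := by gcongr
  have hyE : y ^ 3 * E ^ 2 ≤ 9 * e ^ 5 := by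
    calc y ^ 3 * E ^ 2 ≤ e ^ 3 * (9 * e ^ 2) := by gcongr
      _ = 9 * e ^ 5 := by ring
  have hl7 : l ^ 7 ≤ e ^ 7 := pow_le_pow_left₀ (by linarith) helle 7
  by_cases hsq : χ ^ 2 = 1
  · -- quadratic
    have hL1 := hN hsq
    obtain ⟨d0, hd0⟩ : ∃ d0 : ℝ, d0 = κ / (y ^ 3 * E ^ 2) := ⟨_, rfl⟩
    have hd0p : 0 < d0 := by rw [hd0]; positivity
    have hd01 : d0 ≤ 1 := by
      rw [hd0, div_le_one (by positivity)]
      calc κ ≤ 1 := hκ1
        _ = 1 ^ 3 * 1 ^ 2 := by norm_num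
        _ ≤ y ^ 3 * E ^ 2 := by gcongr
    by_cases hcase : ‖s - 1‖ ≤ d0
    · -- B1
      have him : |s.im| ≤ 1 := by
        have : |(s - 1).im| ≤ ‖s - 1‖ := Complex.abs_im_le_norm _
        simp only [Complex.sub_im, Complex.one_im, sub_zero] at this
        linarith
      have hk := H4 q χ s hq hne hs1 hs2 him
      rw [← hE] at hk
      have hk2 : ‖DirichletCharacter.LFunction χ 1‖ - N ≤ C * ‖s - 1‖ * E ^ 2 := by
        rw [hNd]
        calc ‖DirichletCharacter.LFunction χ 1‖ - ‖DS (chf χ) 0 s‖ ≤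
              ‖DirichletCharacter.LFunction χ 1 - DS (chf χ) 0 s‖ := norm_sub_norm_le _ _
          _ = ‖DS (chf χ) 0 s - DirichletCharacter.LFunction χ 1‖ := norm_sub_rev _ _
          _ ≤ _ := hk
      have hk3 : C * ‖s - 1‖ * E ^ 2 ≤ (c3 / 2) / y ^ 3 := by
        calc C * ‖s - 1‖ * E ^ 2 ≤ C * d0 * E ^ 2 := by gcongr
          _ = (C * κ) / y ^ 3 := by rw [hd0]; field_simp
          _ ≤ (c3 / 2) / y ^ 3 := by gcongr
      have hNQ : c3 / 2 / y ^ 3 ≤ N := by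
        have : c3 / y ^ 3 = c3 / 2 / y ^ 3 + c3 / 2 / y ^ 3 := by ring
        linarith
      have hNQ2 : c3 / 2 ≤ N * y ^ 3 := by rwa [div_le_iff₀ (by positivity)] at hNQ
      calc min (min c1 (c3 / 2)) (min (c2 * κ / 27) (κ / 36)) ≤ c3 / 2 :=
            le_trans (min_le_left _ _) (min_le_right _ _)
        _ ≤ N * y ^ 3 := hNQ2
        _ ≤ N * e ^ 12 := by
            apply mul_le_mul_of_nonneg_left (hy3.trans (hep 3 12 (by norm_num))) hN0
    · push Not at hcase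
      by_cases him : d0 / 2 ≤ |s.im|
      · -- B2
        have him0 : 0 < |s.im| := by linarith
        have hne0 : s.im ≠ 0 := abs_pos.mp him0
        have hlo := H2 q χ s hq hne hne0 hs1 hs2
        rw [← hNd, ← hl] at hlo
        have hb : 1 + 1 / |s.im| ≤ 3 / d0 := by
          have h1 : 1 / |s.im| ≤ 2 / d0 := by
            rw [div_le_div_iff₀ him0 hd0p]; linarith
          have h2 : (1 : ℝ) ≤ 1 / d0 := by rw [le_div_iff₀ hd0p]; linarith
          calc 1 + 1 / |s.im| ≤ 1 / d0 + 2 / d0 := by linarith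
            _ = 3 / d0 := by ring
        have hb2 : 3 / d0 ≤ 27 * e ^ 5 / κ := by
          have : 3 / d0 = 3 * (y ^ 3 * E ^ 2) / κ := by rw [hd0]; field_simp
          rw [this]
          gcongr ?_ / κ
          linarith
        have hfin : c2 ≤ N * e ^ 7 * (27 * e ^ 5 / κ) := by
          calc c2 ≤ N * l ^ 7 * (1 + 1 / |s.im|) := hlo
            _ ≤ N * e ^ 7 * (27 * e ^ 5 / κ) := by
                apply mul_le_mul (mul_le_mul_of_nonneg_left hl7 hN0) (hb.trans hb2)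
                  (by positivity) (by positivity)
        have hfin2 : c2 * κ / 27 ≤ N * e ^ 12 := by
          have : N * e ^ 7 * (27 * e ^ 5 / κ) = 27 / κ * (N * e ^ 12) := by ring
          rw [this] at hfin
          rw [div_le_iff₀ (by norm_num : (0:ℝ) < 27)]
          calc c2 * κ ≤ (27 / κ * (N * e ^ 12)) * κ := by gcongr
            _ = N * e ^ 12 * 27 := by field_simp
        exact le_trans (le_trans (min_le_right _ _) (min_le_left _ _)) hfin2
      · -- B3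
        push Not at him
        have hre : ‖s - 1‖ ≤ (s.re - 1) + |s.im| := by
          have := Complex.norm_le_abs_re_add_abs_im (s - 1)
          simp only [Complex.sub_re, Complex.one_re, Complex.sub_im, Complex.one_im, sub_zero] at this
          rwa [abs_of_pos (by linarith : 0 < s.re - 1)] at this
        have hre2 : d0 / 2 < s.re - 1 := by linarith
        have htr := h3 q χ s (by omega) hs1 hs2
        rw [← hNd] at htr
        have hNd' : d0 / 4 ≤ N := by linarith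
        have hd0e : κ / 36 ≤ (d0 / 4) * e ^ 5 := by
          have : (d0 / 4) * e ^ 5 = κ * e ^ 5 / (4 * (y ^ 3 * E ^ 2)) := by rw [hd0]; field_simp
          rw [this, div_le_div_iff₀ (by norm_num) (by positivity)]
          nlinarith [mul_le_mul_of_nonneg_left hyE hκ0.le]
        calc min (min c1 (c3 / 2)) (min (c2 * κ / 27) (κ / 36)) ≤ κ / 36 :=
              le_trans (min_le_right _ _) (min_le_right _ _)
          _ ≤ (d0 / 4) * e ^ 5 := hd0e
          _ ≤ N * e ^ 5 := by gcongr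
          _ ≤ N * e ^ 12 := mul_le_mul_of_nonneg_left (hep 5 12 (by norm_num)) hN0
  · have hlo := H1 q χ s hq hsq hs1 hs2
    rw [← hNd, ← hl] at hlo
    calc min (min c1 (c3 / 2)) (min (c2 * κ / 27) (κ / 36)) ≤ c1 :=
          le_trans (min_le_left _ _) (min_le_left _ _)
      _ ≤ N * l ^ 7 := hlo
      _ ≤ N * e ^ 12 := mul_le_mul_of_nonneg_left (hl7.trans (hep 7 12 (by norm_num))) hN0

end Pool.Agent.Lib.MP_9f2731_nt.QL.Pw
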