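import Pool.Agent.Lib.MP_9f2731_nt.QL.Pw.Spec
import Pool.Agent.Lib.MP_9f2731_nt.GP.Ap.FkP

/-!
MP_9f2731_nt, QL/Pw/PgA: repulsion of two real characters (helper84)
-/

namespace Pool.Agent.Lib.MP_9f2731_nt.QL.Pw

open Finset Pool.Agent.Lib.BV
open Pool.Agent.Lib.MP_9f2731_nt.GP.Ap
open Pool.Agent.Lib.MP_9f2731_nt.QL

private theorem PgA_zeta (σ : ℝ) (hσ : 1 < σ) :
    ∑' n : ℕ, 1 / ((n : ℝ) + 1) ^ σ ≤ 1 + 1 / (σ - 1) := by
  have h := ZetaAsymptotics.zeta_limit_aux1 hσ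
  have h2 : 0 ≤ ZetaAsymptotics.termTSum σ := tsum_nonneg fun n => ZetaAsymptotics.term_nonneg _ _
  have h3 : 0 ≤ σ * ZetaAsymptotics.termTSum σ := mul_nonneg (by linarith) h2
  linarith

private theorem PgA_norm (f : ℕ → ℂ) (hf : ∀ n, ‖f n‖ ≤ 1) (s : ℂ) (hs : 1 < s.re) :
    ‖LSeries f s‖ ≤ 1 + 1 / (s.re - 1) := by
  have hsum : Summable fun n : ℕ => ‖LSeries.term f s n‖ :=
    (LSeriesSummable_of_bounded_of_one_lt_re (m := 1) (fun n _ => hf n) hs).norm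
  have hz : Summable fun n : ℕ => 1 / ((n : ℝ) + 1) ^ s.re := by
    have := (summable_nat_add_iff 1).mpr (Real.summable_one_div_nat_rpow.mpr hs)
    exact_mod_cast this
  unfold LSeries
  calc ‖∑' n, LSeries.term f s n‖ ≤ ∑' n, ‖LSeries.term f s n‖ := norm_tsum_le_tsum_norm hsum
    _ = ∑' n : ℕ, ‖LSeries.term f s (n + 1)‖ := by
        rw [hsum.tsum_eq_zero_add]; simp
    _ ≤ ∑' n : ℕ, 1 / ((n : ℝ) + 1) ^ s.re := by
        apply Summable.tsum_le_tsum _ ((summable_nat_add_iff 1).mpr hsum) hz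
        intro n
        rw [LSeries.norm_term_eq, if_neg (Nat.succ_ne_zero n)]
        have h1 : (0 : ℝ) < ((n : ℝ) + 1) ^ s.re := Real.rpow_pos_of_pos (by positivity) _
        push_cast
        gcongr
        exact hf _
    _ ≤ _ := PgA_zeta _ hs

private theorem PgA_one {q : ℕ} (hq : 2 ≤ q) {y : ℝ} (hy1 : 1 ≤ y) (hy : Real.log q ≤ y) :
    ell q 1 ≤ 3 * y := by
  have hqr : (2 : ℝ) ≤ q := by exact_mod_cast hq
  unfold ell
  rw [abs_one, Real.log_mul (by linarith) (by norm_num)]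
  have := Real.log_le_sub_one_of_pos (show (0 : ℝ) < 1 + 2 by norm_num)
  linarith

/-- the series near the point 1 -/
private theorem PgA_near {C : ℝ} (hC : 0 < C) (H : ∀ (q : ℕ) [NeZero q]
    (χ : DirichletCharacter ℂ q) (s : ℂ), 2 ≤ q → χ ≠ 1 → 1 < s.re → s.re ≤ 2 → |s.im| ≤ 1 →
    ‖DS (chf χ) 0 s - DirichletCharacter.LFunction χ 1‖ ≤ C * ‖s - 1‖ * (ell q 1) ^ 2)
    {c0 y η : ℝ} (hc0 : 0 < c0) (hy : 1 ≤ y) (hη : η = c0 / y ^ 5) (hη1 : η ≤ 1) {q : ℕ}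
    [NeZero q] (χ : DirichletCharacter ℂ q) (hq : 2 ≤ q) (hlq : Real.log q ≤ y)
    (hχ : χ.IsPrimitive) (hlt : ‖DirichletCharacter.LFunction χ 1‖ < c0 / y ^ 3) :
    ‖DS (chf χ) 0 ((1 + η : ℝ) : ℂ)‖ ≤ c0 * (1 + 9 * C) / y ^ 3 := by
  have hy0 : 0 < y := by linarith
  have hη0 : 0 < η := by rw [hη]; positivity
  have h1 := H q χ ((1 + η : ℝ) : ℂ) hq (FkP_ne_one hq hχ) (by rw [Complex.ofReal_re]; linarith)
    (by rw [Complex.ofReal_re]; linarith) (by rw [Complex.ofReal_im, abs_zero]; norm_num)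
  have h2 : ‖((1 + η : ℝ) : ℂ) - 1‖ = η := by
    rw [show ((1 + η : ℝ) : ℂ) - 1 = ((η : ℝ) : ℂ) by push_cast; ring, Complex.norm_real,
      Real.norm_eq_abs, abs_of_pos hη0]
  rw [h2] at h1
  have h3 : 1 ≤ ell q 1 := FkP_ell hq 1
  have h4 : (ell q 1) ^ 2 ≤ 9 * y ^ 2 := by
    calc (ell q 1) ^ 2 ≤ (3 * y) ^ 2 := by
          have := PgA_one hq hy hlq
          gcongr
      _ = 9 * y ^ 2 := by ring
  have h5 : C * η * (ell q 1) ^ 2 ≤ 9 * C * c0 / y ^ 3 := by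
    calc C * η * (ell q 1) ^ 2 ≤ C * η * (9 * y ^ 2) := by gcongr
      _ = 9 * C * c0 / y ^ 3 := by rw [hη]; field_simp
  have h6 : ‖DS (chf χ) 0 ((1 + η : ℝ) : ℂ)‖ ≤
      ‖DS (chf χ) 0 ((1 + η : ℝ) : ℂ) - DirichletCharacter.LFunction χ 1‖ +
        ‖DirichletCharacter.LFunction χ 1‖ := by
    have := norm_add_le (DS (chf χ) 0 ((1 + η : ℝ) : ℂ) - DirichletCharacter.LFunction χ 1)
      (DirichletCharacter.LFunction χ 1)
    rwa [sub_add_cancel] at this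
  have h7 : c0 * (1 + 9 * C) / y ^ 3 = 9 * C * c0 / y ^ 3 + c0 / y ^ 3 := by ring
  linarith

theorem pPgA (h1 : PgPStmt) (h2 : PgEStmt) (h3 : SeEStmt) (h4 : ChbStmt) (h5 : LnkStmt) :
    PgAStmt := by
  obtain ⟨C, hC, H⟩ := h5
  obtain ⟨K, hK⟩ : ∃ K : ℝ, K = 1 + 9 * C := ⟨_, rfl⟩
  have hK1 : 1 ≤ K := by rw [hK]; linarith
  have hK0 : 0 < K := by linarith
  obtain ⟨c0, hc0d⟩ : ∃ c0 : ℝ, c0 = 1 / (241 * K ^ 2) := ⟨_, rfl⟩
  have hc0 : 0 < c0 := by rw [hc0d]; positivity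
  have hcK : c0 * K ^ 2 = 1 / 241 := by rw [hc0d]; field_simp
  have hc1 : c0 ≤ 1 := by
    have : 1 ≤ K ^ 2 := one_le_pow₀ hK1
    nlinarith
  refine ⟨c0, hc0, fun y q1 q2 _ _ χ1 χ2 hy hq1 hq2 hne hl1 hl2 hp1 hp2 hs1 hs2 => ?_⟩
  by_contra hcon
  rw [not_le, max_lt_iff] at hcon
  have hy0 : 0 < y := by linarith
  obtain ⟨η, hη⟩ : ∃ η : ℝ, η = c0 / y ^ 5 := ⟨_, rfl⟩
  have hη0 : 0 < η := by rw [hη]; positivity
  have hη1 : η ≤ 1 := by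
    rw [hη, div_le_one (by positivity)]
    exact hc1.trans (one_le_pow₀ hy)
  have a1 := PgA_near hC H hc0 hy hη hη1 χ1 hq1 hl1 hp1 hcon.1
  have a2 := PgA_near hC H hc0 hy hη hη1 χ2 hq2 hl2 hp2 hcon.2
  rw [← hK] at a1 a2
  have a0 : ‖DS (fun _ => 1) 0 ((1 + η : ℝ) : ℂ)‖ ≤ 2 * y ^ 5 / c0 := by
    unfold DS
    have h := PgA_norm (fun n => (fun _ : ℕ => (1 : ℂ)) n * ((Real.log n : ℝ) : ℂ) ^ 0)
      (fun n => by simp) ((1 + η : ℝ) : ℂ) (by rw [Complex.ofReal_re]; linarith)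
    refine h.trans ?_
    rw [Complex.ofReal_re, add_sub_cancel_left]
    have e1 : 1 ≤ 1 / η := by rw [le_div_iff₀ hη0]; linarith
    have e2 : 2 * y ^ 5 / c0 = 2 * (1 / η) := by rw [hη]; field_simp
    linarith
  obtain ⟨χ, hχ, hχ1⟩ := h1 q1 q2 χ1 χ2 (by omega) (by omega)
  have hχne := hχ1 hp1 hp2 hs2 hne
  have a3 : ‖DS (fun n => chf χ1 n * chf χ2 n) 0 ((1 + η : ℝ) : ℂ)‖ ≤ 120 * y := by
    rw [← show chf χ = fun n => chf χ1 n * chf χ2 n from funext hχ]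
    have hq12 : 1 ≤ q1 * q2 := Nat.mul_pos (by omega) (by omega)
    have r1 : (2 : ℝ) ≤ q1 := by exact_mod_cast hq1
    have r2 : (2 : ℝ) ≤ q2 := by exact_mod_cast hq2
    have h := h3 0 (chf χ) ((q1 * q2 : ℕ) : ℝ) ((1 + η : ℝ) : ℂ) (by push_cast; nlinarith)
      (h4.1 (q1 * q2) χ hq12 hχne) (by rw [Complex.ofReal_re]; linarith)
      (by rw [Complex.ofReal_re]; linarith)
    refine h.trans ?_
    rw [Complex.ofReal_im, Nat.factorial_zero, Nat.cast_one, one_mul, zero_add, pow_one]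
    unfold ell
    rw [abs_zero, zero_add]
    push_cast
    rw [Real.log_mul (by positivity) (by norm_num), Real.log_mul (by positivity) (by positivity)]
    have := Real.log_two_lt_d9
    linarith
  have h6 := h2 q1 q2 χ1 χ2 (1 + η) (by omega) (by omega) hs1 hs2 (by linarith)
  have h7 : ‖DS (fun _ => 1) 0 ((1 + η : ℝ) : ℂ)‖ * ‖DS (chf χ1) 0 ((1 + η : ℝ) : ℂ)‖ *
      ‖DS (chf χ2) 0 ((1 + η : ℝ) : ℂ)‖ *
      ‖DS (fun n => chf χ1 n * chf χ2 n) 0 ((1 + η : ℝ) : ℂ)‖ ≤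
      2 * y ^ 5 / c0 * (c0 * K / y ^ 3) * (c0 * K / y ^ 3) * (120 * y) := by
    gcongr
  have h8 : 2 * y ^ 5 / c0 * (c0 * K / y ^ 3) * (c0 * K / y ^ 3) * (120 * y) =
      240 * (c0 * K ^ 2) := by
    field_simp
    ring
  rw [h8, hcK] at h7
  linarith

end Pool.Agent.Lib.MP_9f2731_nt.QL.Pw
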