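import Pool.Agent.Lib.MP_9f2731_nt.QL.Pw.Spec

/-!
MP_9f2731_nt, QL/Pw, module PgE (helper64): positivity of the product of four L-functions.
-/

namespace Pool.Agent.Lib.MP_9f2731_nt.QL.Pw

open Finset Pool.Agent.Lib.BV Filter Topology
open Pool.Agent.Lib.MP_9f2731_nt.GP.Ap Pool.Agent.Lib.MP_9f2731_nt.QL

private theorem pgE_real (t α β : ℝ) (ht0 : 0 < t) (ht : t ≤ 1 / 2) (hα : α = 0 ∨ α = 1 ∨ α = -1)
    (hβ : β = 0 ∨ β = 1 ∨ β = -1) :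
    1 ≤ (1 - t)⁻¹ * (1 - α * t)⁻¹ * (1 - β * t)⁻¹ * (1 - α * β * t)⁻¹ := by
  rw [← mul_inv, ← mul_inv, ← mul_inv]
  have hα1 : |α| ≤ 1 := by rcases hα with h | h | h <;> rw [h] <;> norm_num
  have hβ1 : |β| ≤ 1 := by rcases hβ with h | h | h <;> rw [h] <;> norm_num
  have h1 : 0 < 1 - t := by linarith
  have h2 : 0 < 1 - α * t := by nlinarith [abs_le.mp hα1]
  have h3 : 0 < 1 - β * t := by nlinarith [abs_le.mp hβ1]
  have h4 : 0 < 1 - α * β * t := by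
    have : |α * β| ≤ 1 := by
      rw [abs_mul]
      exact mul_le_one₀ hα1 (abs_nonneg _) hβ1
    nlinarith [abs_le.mp this]
  rw [one_le_inv₀ (by positivity)]
  have hs : (1 - t) * (1 + t) ≤ 1 := by nlinarith
  have hs0 : 0 ≤ (1 - t) * (1 + t) := by nlinarith
  have hd : (1 - t) * (1 - t) ≤ 1 := by nlinarith
  have hd0 : 0 ≤ (1 - t) * (1 - t) := by nlinarith
  rcases hα with rfl | rfl | rfl <;> rcases hβ with rfl | rfl | rfl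
  · nlinarith
  · nlinarith
  · nlinarith
  · nlinarith
  · nlinarith [mul_le_one₀ hd hd0 hd]
  · nlinarith [mul_le_one₀ hs hs0 hs]
  · nlinarith
  · nlinarith [mul_le_one₀ hs hs0 hs]
  · nlinarith [mul_le_one₀ hs hs0 hs]

/-- The values of a real character. -/
private theorem pgE_val (q : ℕ) (χ : DirichletCharacter ℂ q) (hχ : χ ^ 2 = 1) (n : ℕ) :
    ∃ α : ℝ, (α = 0 ∨ α = 1 ∨ α = -1) ∧ χ (n : ZMod q) = (α : ℂ) := by
  by_cases h : IsUnit (n : ZMod q)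
  · have h1 : χ (n : ZMod q) * χ (n : ZMod q) = 1 := by
      have h2 : (χ ^ 2) (n : ZMod q) = 1 := by
        rw [hχ]
        exact MulChar.one_apply h
      rw [pow_two, MulChar.mul_apply] at h2
      exact h2
    rcases mul_self_eq_one_iff.mp h1 with h2 | h2
    · exact ⟨1, Or.inr (Or.inl rfl), by rw [h2, Complex.ofReal_one]⟩
    · exact ⟨-1, Or.inr (Or.inr rfl), by rw [h2, Complex.ofReal_neg, Complex.ofReal_one]⟩
  · exact ⟨0, Or.inl rfl, by rw [χ.map_nonunit h, Complex.ofReal_zero]⟩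

private theorem pgE_DS (f : ℕ → ℂ) (s : ℂ) : DS f 0 s = LSeries f s := by
  unfold DS
  congr 1
  funext n
  rw [pow_zero, mul_one]

theorem pPgE (h1 : PgPStmt) : PgEStmt := by
  intro q1 q2 χ1 χ2 σ hq1 hq2 hχ1 hχ2 hσ
  obtain ⟨χ, hχ, -⟩ := h1 q1 q2 χ1 χ2 hq1 hq2
  have hs : 1 < ((σ : ℝ) : ℂ).re := by rwa [Complex.ofReal_re]
  rw [pgE_DS, pgE_DS, pgE_DS, pgE_DS]
  have hP0 := riemannZeta_eulerProduct_hasProd hs
  have e0 : LSeries (fun _ => 1) (σ : ℂ) = riemannZeta (σ : ℂ) := LSeries_one_eq_riemannZeta hs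
  rw [← e0] at hP0
  have hP1 := DirichletCharacter.LSeries_eulerProduct_hasProd χ1 hs
  have hP2 := DirichletCharacter.LSeries_eulerProduct_hasProd χ2 hs
  have hP3 := DirichletCharacter.LSeries_eulerProduct_hasProd χ hs
  have e3 : (fun n : ℕ => χ (n : ZMod (q1 * q2))) = fun n => chf χ1 n * chf χ2 n := funext hχ
  have hP := ((hP0.mul hP1).mul hP2).mul hP3
  have e4 : LSeries (fun n : ℕ => χ (n : ZMod (q1 * q2))) (σ : ℂ) =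
      LSeries (fun n => chf χ1 n * chf χ2 n) (σ : ℂ) := by rw [e3]
  rw [e4] at hP
  have hT : Tendsto (fun s : Finset Nat.Primes => ‖∏ p ∈ s, ((1 - (p : ℂ) ^ (-(σ : ℂ)))⁻¹ *
      (1 - χ1 ((p : ℕ) : ZMod q1) * (p : ℂ) ^ (-(σ : ℂ)))⁻¹ *
      (1 - χ2 ((p : ℕ) : ZMod q2) * (p : ℂ) ^ (-(σ : ℂ)))⁻¹ *
      (1 - χ ((p : ℕ) : ZMod (q1 * q2)) * (p : ℂ) ^ (-(σ : ℂ)))⁻¹)‖) atTop
      (𝓝 ‖LSeries (fun _ => 1) (σ : ℂ) * LSeries (fun n : ℕ => χ1 (n : ZMod q1)) (σ : ℂ) *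
        LSeries (fun n : ℕ => χ2 (n : ZMod q2)) (σ : ℂ) *
        LSeries (fun n => chf χ1 n * chf χ2 n) (σ : ℂ)‖) := by
    have hP' : Tendsto (fun s : Finset Nat.Primes => ∏ p ∈ s, ((1 - (p : ℂ) ^ (-(σ : ℂ)))⁻¹ *
      (1 - χ1 ((p : ℕ) : ZMod q1) * (p : ℂ) ^ (-(σ : ℂ)))⁻¹ *
      (1 - χ2 ((p : ℕ) : ZMod q2) * (p : ℂ) ^ (-(σ : ℂ)))⁻¹ *
      (1 - χ ((p : ℕ) : ZMod (q1 * q2)) * (p : ℂ) ^ (-(σ : ℂ)))⁻¹)) atTop
      (𝓝 (LSeries (fun _ => 1) (σ : ℂ) * LSeries (fun n : ℕ => χ1 (n : ZMod q1)) (σ : ℂ) *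
        LSeries (fun n : ℕ => χ2 (n : ZMod q2)) (σ : ℂ) *
        LSeries (fun n => chf χ1 n * chf χ2 n) (σ : ℂ))) := by
      simpa [HasProd] using hP
    exact hP'.norm
  have hge := ge_of_tendsto' (b := (1 : ℝ)) hT (fun s => by
    rw [norm_prod]
    refine Finset.prod_induction _ (fun x : ℝ => 1 ≤ x)
      (fun a b ha hb => one_le_mul_of_one_le_of_one_le ha hb) (le_refl 1) (fun p _ => ?_)
    obtain ⟨α, hα, hα'⟩ := pgE_val q1 χ1 hχ1 p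
    obtain ⟨β, hβ, hβ'⟩ := pgE_val q2 χ2 hχ2 p
    have hχp : χ ((p : ℕ) : ZMod (q1 * q2)) = (α : ℂ) * (β : ℂ) := by
      have h5 := hχ p
      unfold chf at h5
      rw [h5, hα', hβ']
    have ht : (p : ℂ) ^ (-(σ : ℂ)) = (((p : ℝ) ^ (-σ) : ℝ) : ℂ) := by
      rw [Complex.ofReal_cpow (Nat.cast_nonneg _)]
      push_cast
      rfl
    rw [hα', hβ', hχp, ht]
    have h2p : (2 : ℝ) ≤ (p : ℝ) := by exact_mod_cast p.2.two_le
    have ht0 : 0 < (p : ℝ) ^ (-σ) := by positivity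
    have ht2 : (p : ℝ) ^ (-σ) ≤ 1 / 2 := by
      rw [Real.rpow_neg (by linarith), one_div]
      refine inv_anti₀ (by norm_num) ?_
      calc (2 : ℝ) ≤ (p : ℝ) := h2p
        _ = (p : ℝ) ^ (1 : ℝ) := (Real.rpow_one _).symm
        _ ≤ (p : ℝ) ^ σ := Real.rpow_le_rpow_of_exponent_le (by linarith) hσ.le
    have h6 := pgE_real _ α β ht0 ht2 hα hβ
    have h7 : ((1 - (((p : ℝ) ^ (-σ) : ℝ) : ℂ))⁻¹ * (1 - (α : ℂ) * (((p : ℝ) ^ (-σ) : ℝ) : ℂ))⁻¹ *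
        (1 - (β : ℂ) * (((p : ℝ) ^ (-σ) : ℝ) : ℂ))⁻¹ *
        (1 - (α : ℂ) * (β : ℂ) * (((p : ℝ) ^ (-σ) : ℝ) : ℂ))⁻¹) =
        (((1 - (p : ℝ) ^ (-σ))⁻¹ * (1 - α * (p : ℝ) ^ (-σ))⁻¹ * (1 - β * (p : ℝ) ^ (-σ))⁻¹ *
          (1 - α * β * (p : ℝ) ^ (-σ))⁻¹ : ℝ) : ℂ) := by
      simp only [Complex.ofReal_mul, Complex.ofReal_inv, Complex.ofReal_sub, Complex.ofReal_one]
    rw [h7, Complex.norm_real, Real.norm_eq_abs]
    exact h6.trans (le_abs_self _))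
  rw [norm_mul, norm_mul, norm_mul] at hge
  exact hge

end Pool.Agent.Lib.MP_9f2731_nt.QL.Pw
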