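import Pool.Agent.Lib.MP_9f2731_nt.QL.Pw.Spec

/-!
MP_9f2731_nt, QL/Pw, module PgP (helper64): the product of two characters.
-/

namespace Pool.Agent.Lib.MP_9f2731_nt.QL.Pw

open Finset Pool.Agent.Lib.BV
open Pool.Agent.Lib.MP_9f2731_nt.GP.Ap Pool.Agent.Lib.MP_9f2731_nt.QL

private theorem pgP_change (q m : ℕ) (hqm : q ∣ m) (χ : DirichletCharacter ℂ q) (n : ℕ)
    (hn : n.Coprime m) : DirichletCharacter.changeLevel hqm χ (n : ZMod m) = χ (n : ZMod q) := by
  have h := DirichletCharacter.changeLevel_eq_cast_of_dvd' χ hqm (a := (n : ℤ))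
    (Nat.isCoprime_iff_coprime.2 hn)
  rw [Int.cast_natCast, Int.cast_natCast] at h
  exact h

private theorem pgP_zero (q n : ℕ) (χ : DirichletCharacter ℂ q) (hn : ¬ n.Coprime q) :
    χ (n : ZMod q) = 0 := by
  apply χ.map_nonunit
  rw [ZMod.isUnit_iff_coprime]
  exact hn

theorem pPgP : PgPStmt := by
  intro q r χ ψ hq hr
  have : NeZero (q * r) := ⟨by positivity⟩
  set c1 := DirichletCharacter.changeLevel (Nat.dvd_mul_right q r) χ with hc1
  set c2 := DirichletCharacter.changeLevel (Nat.dvd_mul_left r q) ψ with hc2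
  refine ⟨c1 * c2, ?_, ?_⟩
  · intro n
    unfold chf
    by_cases h : n.Coprime (q * r)
    · rw [MulChar.mul_apply, hc1, hc2, pgP_change q (q * r) _ χ n h, pgP_change r (q * r) _ ψ n h]
    · rw [pgP_zero (q * r) n _ h]
      rw [Nat.coprime_mul_iff_right, not_and_or] at h
      rcases h with h | h
      · rw [pgP_zero q n χ h, zero_mul]
      · rw [pgP_zero r n ψ h, mul_zero]
  · intro hχ hψ hψ2 hne h
    have h2 : c2 * c2 = 1 := by
      rw [← pow_two, hc2, ← map_pow, hψ2, map_one]
    have h3 : c1 = c2 := by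
      have h4 : c1 * c2 * c2 = 1 * c2 := by rw [h]
      rwa [mul_assoc, h2, mul_one, one_mul] at h4
    apply hne
    have e1 : c1.conductor = χ.conductor := DirichletCharacter.conductor_changeLevel χ _
    have e2 : c2.conductor = ψ.conductor := DirichletCharacter.conductor_changeLevel ψ _
    rw [(DirichletCharacter.isPrimitive_def χ).1 hχ] at e1
    rw [(DirichletCharacter.isPrimitive_def ψ).1 hψ] at e2
    exact e1.symm.trans ((congrArg DirichletCharacter.conductor h3).trans e2)

end Pool.Agent.Lib.MP_9f2731_nt.QL.Pw
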