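import Pool.Agent.Lib.MP_9f2731_nt.QL.Pw.ApG
import Pool.Agent.Lib.MP_9f2731_nt.QL.Pw.ApW
import Pool.Agent.Lib.MP_9f2731_nt.QL.Pw.ExG
import Pool.Agent.Lib.MP_9f2731_nt.QL.Pw.FkG
import Pool.Agent.Lib.MP_9f2731_nt.QL.Pw.LoG
import Pool.Agent.Lib.MP_9f2731_nt.QL.Pw.PgA
import Pool.Agent.Lib.MP_9f2731_nt.QL.Pw.PgE
import Pool.Agent.Lib.MP_9f2731_nt.QL.Pw.PgP
import Pool.Agent.Lib.MP_9f2731_nt.QL.Pw.SwG
import Pool.Agent.Lib.MP_9f2731_nt.QL.Pw.SwQ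
import Pool.Agent.Lib.MP_9f2731_nt.GP.Ap.All

/-!
MP_9f2731_nt, QL/Pw (helper78): primes = 1 modulo q, with one exceptional prime.
-/

namespace Pool.Agent.Lib.MP_9f2731_nt.QL.Pw

open Pool.Agent.Lib.BV
open Pool.Agent.Lib.MP_9f2731_nt.GP.Ap

theorem pwAll : ApVStmt := by
  have bPgA := pPgA pPgP (pPgE pPgP) aSeE aChb aLnk
  have bExG := pExG bPgA aSie aRlC
  have bLoG := pLoG aLo1 aLo2 aTrl aLnk
  have bFkG := pFkG aSeE aChb bLoG aReE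
  have bSwG := pSwG bFkG aSmb aPer aUnE aPaE aPps
  have bApG := pApG (pSwQ bSwG) aPnt
  exact pApW bExG bApG

end Pool.Agent.Lib.MP_9f2731_nt.QL.Pw
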