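import Pool.Agent.Lib.BV.SpecW
import Pool.Agent.Lib.MP_9f2731_nt.GP.Ap.Spec
import Pool.Agent.Lib.MP_9f2731_nt.QL.Defs

/-!
MP_9f2731_nt, THEOREM QL (helper78), chapter Pw: primes = 1 modulo q for all q <= exp((log X)^(1/200)) which are not
divisible by one prime p0 (Page's theorem and the derivative method of GP/Ap, helper3). Result: ApVStmt.

RULES. Module X: file Pool/Agent/Lib/MP_9f2731_nt/QL/Pw/X.lean, first line `import Pool.Agent.Lib.MP_9f2731_nt.QL.Pw.Spec` (plus proved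
library files named in the docstring), then `namespace Pool.Agent.Lib.MP_9f2731_nt.QL.Pw`, `open Finset Pool.Agent.Lib.BV`,
`open Pool.Agent.Lib.MP_9f2731_nt.GP.Ap Pool.Agent.Lib.MP_9f2731_nt.QL`, final theorem `theorem pX (h1 : AStmt) ... : XStmt`; the statements listed under
Uses are hypotheses of your theorem, in this order (SeE, ReE, UnE, PaE, RlC are the statements of GP/Ap/Spec, proved
there as tSeE, ...; Lo1, Lo2, Trl, Lnk, Chb, Smb, Per, Pps, SieW, Pnt are those of Lib/BV). All modules are independent.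
LFunction means DirichletCharacter.LFunction.
-/

namespace Pool.Agent.Lib.MP_9f2731_nt.QL.Pw

open Finset Pool.Agent.Lib.BV
open Pool.Agent.Lib.MP_9f2731_nt.GP.Ap
open Pool.Agent.Lib.MP_9f2731_nt.QL

/-- Module PgP (product of two characters). Uses: nothing. Proof. χ = changeLevel χ1 * changeLevel χ2 at the level q1 q2. n coprime to q1 q2: DirichletCharacter.changeLevel_eq_cast_of_dvd. Otherwise n is not coprime to q1 or not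
to q2 and both sides are 0. Second part: if χ = 1, then changeLevel χ1 = (changeLevel χ2)⁻¹ = changeLevel χ2 =: χ' (χ2⁻¹ = χ2). Let D be the conductor of χ' and χ0 its primitive character (mod D). D ∣ q1 and D ∣ q2 (χ' factors through q1 and
through q2; DirichletCharacter.conductor_dvd_of_mem_conductorSet). changeLevel from q1 of (changeLevel from D to q1 of χ0) is χ' = changeLevel χ1 (changeLevel_trans), so by changeLevel_injective χ1 = changeLevel χ0: χ1 factors through D,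
hence q1 = conductor χ1 ≤ D, so q1 = D. In the same way q2 = D. Contradiction to q1 ≠ q2. -/
def PgPStmt : Prop :=
  ∀ (q1 q2 : ℕ) (χ1 : DirichletCharacter ℂ q1) (χ2 : DirichletCharacter ℂ q2), 1 ≤ q1 → 1 ≤ q2 →
    ∃ χ : DirichletCharacter ℂ (q1 * q2), (∀ n : ℕ, chf χ n = chf χ1 n * chf χ2 n) ∧
      (χ1.IsPrimitive → χ2.IsPrimitive → χ2 ^ 2 = 1 → q1 ≠ q2 → χ ≠ 1)

/-- Module PgE (positivity of the product of four L-functions). Uses: PgP. Proof. DS f 0 s = LSeries f s. Euler products (riemannZeta_eulerProduct_hasProd or DirichletCharacter.LSeries_eulerProduct_hasProd for the character 1 mod 1, for χ1, χ2 and for the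
character χ of PgP; HasProd.mul): the product of the four series is the limit of the finite products over sets of primes p of ((1 - t)(1 - a t)(1 - b t)(1 - a b t))⁻¹, t = p^(-σ) ∈ (0, 1/2], a = χ1 p, b = χ2 p ∈ {-1, 0, 1} (a^2 = 1 or a = 0,
because χ1^2 = 1). The factor (1-t)(1-at)(1-bt)(1-abt) is real and in (0,1]: a = b = 1: (1-t)^4; exactly one of a, b is 1 and the other -1, or a = b = -1: (1-t^2)^2; a = 0 or b = 0: (1-t)(1-ct) with c ∈ {-1,0,1}. So every finite product has norm ≥ 1, and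
so has the limit (ge_of_tendsto with the continuity of the norm). -/
def PgEStmt : Prop :=
  ∀ (q1 q2 : ℕ) (χ1 : DirichletCharacter ℂ q1) (χ2 : DirichletCharacter ℂ q2) (σ : ℝ), 1 ≤ q1 → 1 ≤ q2 →
    χ1 ^ 2 = 1 → χ2 ^ 2 = 1 → 1 < σ →
    1 ≤ ‖DS (fun _ => 1) 0 (σ : ℂ)‖ * ‖DS (chf χ1) 0 (σ : ℂ)‖ * ‖DS (chf χ2) 0 (σ : ℂ)‖ *
      ‖DS (fun n => chf χ1 n * chf χ2 n) 0 (σ : ℂ)‖

/-- Module PgA (Page, Landau: repulsion). Uses: PgP, PgE, SeE, Chb, Lnk. Proof. C1 from Lnk, c0 = 1/(241 (1 + 9 C1)^2) ≤ 1, c3 = c0. Suppose both norms are < c0/y^3. η = c0/y^5 ∈ (0,1], s = 1 + η. ell q_i 1 = log(3 q_i) ≤ y + log 3 ≤ 3 y, so by Lnk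
‖DS (chf χ_i) 0 s‖ ≤ c0/y^3 + C1 η 9 y^2 = c0 (1 + 9 C1)/y^3. χ from PgP, χ ≠ 1: BPS (chf χ) (q1 q2) by Chb, SeE with j = 0, Q = q1 q2: ‖DS (chf χ) 0 s‖ ≤ 40 log(2 q1 q2) ≤ 40 (2 y + 1) ≤ 120 y. ‖DS 1 0 s‖ ≤ ∑ n^(-1-η) ≤ 1 + 1/η ≤ 2/η (see Lib/BV/Trl.lean).
PgE: 1 ≤ (2/η) (c0 (1 + 9 C1)/y^3)^2 120 y = 240 c0 (1 + 9 C1)^2 < 1. Contradiction. -/
def PgAStmt : Prop :=
  ∃ c3 : ℝ, 0 < c3 ∧ ∀ (y : ℝ) (q1 q2 : ℕ) [NeZero q1] [NeZero q2] (χ1 : DirichletCharacter ℂ q1)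
    (χ2 : DirichletCharacter ℂ q2), 1 ≤ y → 2 ≤ q1 → 2 ≤ q2 → q1 ≠ q2 → Real.log q1 ≤ y → Real.log q2 ≤ y →
    χ1.IsPrimitive → χ2.IsPrimitive → χ1 ^ 2 = 1 → χ2 ^ 2 = 1 →
    c3 / y ^ 3 ≤ max ‖DirichletCharacter.LFunction χ1 1‖ ‖DirichletCharacter.LFunction χ2 1‖

/-- Module ExG (the exceptional prime). Uses: PgA, SieW, RlC. Proof. c3 from PgA, c from SieW for ε = 1. P = ∏ of the primes ≤ w1 (or w1!). y0 = max 1 (1 + 8 c3 P/c). Let y ≥ y0. If there is a primitive real character χ mod D, 2 ≤ D, log D ≤ y, with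
‖LFunction χ 1‖ < c3/y^3, then c/D ≤ Re LFunction χ 1 < c3/y^3, so D > (c/c3) y^3 ≥ (c/c3) y > 8 P. By RlC D ≤ 8 ∏_{p ∣ D} p, so not all prime factors of D are ≤ w1 (otherwise ∏_{p ∣ D} p ≤ P): take p0 ∣ D, p0 > w1. If q1 is as in the statement and
p0 ∤ q1, then q1 ≠ D, and PgA (y, q1, D) gives c3/y^3 ≤ max ‖LFunction χ1 1‖ ‖LFunction χ 1‖, hence c3/y^3 ≤ ‖LFunction χ1 1‖. If there is no such χ take any prime p0 > w1 (Nat.exists_infinite_primes). -/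
def ExGStmt : Prop :=
  ∃ c3 : ℝ, 0 < c3 ∧ ∀ w1 : ℕ, ∃ y0 : ℝ, ∀ y : ℝ, y0 ≤ y → ∃ p0 : ℕ, p0.Prime ∧ w1 < p0 ∧
    ∀ (q1 : ℕ) [NeZero q1] (χ1 : DirichletCharacter ℂ q1), 2 ≤ q1 → Real.log q1 ≤ y → ¬ p0 ∣ q1 →
      χ1.IsPrimitive → χ1 ^ 2 = 1 → c3 / y ^ 3 ≤ ‖DirichletCharacter.LFunction χ1 1‖

/-- the lower bound for real characters -/
def Nex (c3 y : ℝ) {q : ℕ} [NeZero q] (χ : DirichletCharacter ℂ q) : Prop :=
  χ ^ 2 = 1 → c3 / y ^ 3 ≤ ‖DirichletCharacter.LFunction χ 1‖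

/-- Module LoG (compare Lib/BV/LoF.lean). Uses: Lo1, Lo2, Trl, Lnk. Proof. E = y + log(|im s| + 2) ≥ 1. ell q (im s) = log q + log(|im s| + 2) ≤ E. ell q 1 = log(3 q) ≤ y + log 3 ≤ 3 y ≤ 3 E and ell q 1 ≥ 1. χ ≠ 1 (primitive, q ≥ 2).
(A) χ^2 ≠ 1: Lo1: c1 ≤ ‖DS‖ ell^7 ≤ ‖DS‖ E^12. (B) χ^2 = 1: C of Lnk, κ = min 1 (c3/(2C)), d0 = κ/(y^3 (ell q 1)^2) ≤ 1.
(B1) ‖s - 1‖ ≤ d0: |im s| ≤ 1, Lnk: ‖DS‖ ≥ ‖LFunction χ 1‖ - C d0 (ell q 1)^2 ≥ c3/y^3 - C κ/y^3 ≥ (c3/2)/y^3 ≥ (c3/2)/E^12.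
(B2) |im s| ≥ d0/2: Lo2: c2 ≤ ‖DS‖ ell^7 (1 + 2/d0) ≤ ‖DS‖ E^7 (3/d0), and 1/d0 = y^3 (ell q 1)^2/κ ≤ 9 E^5/κ, so c2 κ/27 ≤ ‖DS‖ E^12.
(B3) otherwise re s - 1 ≥ ‖s - 1‖ - |im s| > d0/2, Trl: ‖DS‖ ≥ d0/4 ≥ κ/(36 E^5) ≥ κ/(36 E^12). c = the minimum of c1, c3/2, c2 κ/27, κ/36. -/
def LoGStmt : Prop :=
  ∀ c3 : ℝ, 0 < c3 → ∃ c : ℝ, 0 < c ∧ ∀ (y : ℝ) (q : ℕ) [NeZero q] (χ : DirichletCharacter ℂ q) (s : ℂ), 1 ≤ y →
    2 ≤ q → Real.log q ≤ y → χ.IsPrimitive → Nex c3 y χ → 1 < s.re → s.re ≤ 2 →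
    c ≤ ‖DS (chf χ) 0 s‖ * (y + Real.log (|s.im| + 2)) ^ 12

/-- Module FkG (compare GP/Ap/FkP.lean). Uses: SeE, Chb, LoG, ReE. Proof. c from LoG, c' = min c 1. E = y + log(|im s| + 2) ≥ 1, ell q (im s) ≤ E. χ ≠ 1 (primitive, q ≥ 2). For m ≥ 1: ‖DS m‖ ≤ m! (40 E)^(m+1) ≤ m! (40 E)^(m+1) (E^12/c') ‖DS 0‖ ≤
m! ((1600/c') E^14)^m ‖DS 0‖, because 40^(m+1) ≤ 1600^m, 1/c' ≤ (1/c')^m, m + 13 ≤ 14 m, E ≥ 1. ReE with V = (1600/c') E^14. B = 6400/c'. -/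
def FkGStmt : Prop :=
  ∀ c3 : ℝ, 0 < c3 → ∃ B : ℝ, 1 ≤ B ∧ ∀ (j : ℕ) (y : ℝ) (q : ℕ) [NeZero q] (χ : DirichletCharacter ℂ q) (s : ℂ),
    1 ≤ y → 2 ≤ q → Real.log q ≤ y → χ.IsPrimitive → Nex c3 y χ → 1 < s.re → s.re ≤ 2 →
    ‖LS (chf χ) j s‖ ≤ (j.factorial : ℝ) * (B * (y + Real.log (|s.im| + 2)) ^ 14) ^ (j + 1)

/-- Module SwG (compare GP/Ap/SwE.lean, which can be copied). Uses: FkG, Smb, Per, UnE, PaE, Pps. Proof. i ≥ 1, c n = Λ(n) χ(n) (log n)^(2i-1), so LSeries c = LS (chf χ) (2i-1), ‖c n‖ ≤ (1 + log n)^(2i), summable by Smb.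
FkG: ‖LSeries c s‖ ≤ (2i-1)! (B E^14)^(2i), E = y + log(|t|+2) ≤ (1 + y)(1 + log(|t|+2)), and with k = 28 i (1 + log v)^k ≤ k! 2^k e^((1 + log v)/2) ≤ 2 (2k)^k v^(1/2) for v ≥ 1. So ‖LSeries c s‖ ≤ K (|t|+2)^(1/2) with
K = 2 (2i)^(2i) B^(2i) (56 i)^(28 i) (1 + y)^(28 i) ≥ 1. Per (constant C1): smoothed sums ≤ C1 K y. UnE, PaE: ‖∑_{√x < n ≤ x} Λ(n) χ(n)/log n‖ ≤ 4 8^i 10 4^i i! (C1 K + 1) x/(log x)^i (i! ≤ i^i). Total power of i: i + 2i + 28i = 31 i. So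
this is ≤ D0 (D1 i^31 (1 + y)^28/log x)^i x, D1 = 32 4 56^28 B^2, D0 = 80 (C1 + 1). Pps: the sum over the primes p ≤ x differs from it by at most C √x log x. D = the maximum of D0, D1, C. -/
def SwGStmt : Prop :=
  ∀ c3 : ℝ, 0 < c3 → ∃ D : ℝ, 1 ≤ D ∧ ∀ (i : ℕ) (y : ℝ) (q : ℕ) [NeZero q] (χ : DirichletCharacter ℂ q) (x : ℝ),
    1 ≤ i → 1 ≤ y → 2 ≤ q → Real.log q ≤ y → χ.IsPrimitive → Nex c3 y χ → 4 ≤ x →
    ‖∑ p ∈ (Icc 1 ⌊x⌋₊).filter Nat.Prime, χ (p : ZMod q)‖ ≤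
      D * (x * (D * (i : ℝ) ^ 31 * (1 + y) ^ 28 / Real.log x) ^ i + Real.sqrt x * Real.log x)

/-- Module SwQ (compare GP/Ap/SwP.lean). Uses: SwG. Proof. L = log x large, i = ⌈3 L^(1/80)⌉ ≤ 4 L^(1/80), 1 + y ≤ 2 L^(1/100): D i^31 (1 + y)^28/L ≤ D 4^31 2^28 L^(31/80 + 28/100 - 1) ≤ D' L^(-3/10) ≤ e^(-1) for L large, so its i-th power is
≤ exp(-3 L^(1/80)), and D exp(-3 L^(1/80)) + D L exp(-L/2) ≤ exp(-L^(1/80)) for L large. -/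
def SwQStmt : Prop :=
  ∀ c3 : ℝ, 0 < c3 → ∃ x0 : ℝ, ∀ (x y : ℝ) (q : ℕ) [NeZero q] (χ : DirichletCharacter ℂ q), x0 ≤ x → 1 ≤ y →
    y ≤ (Real.log x) ^ ((1 : ℝ) / 100) → 2 ≤ q → Real.log q ≤ y → χ.IsPrimitive → Nex c3 y χ →
    ‖∑ p ∈ (Icc 1 ⌊x⌋₊).filter Nat.Prime, χ (p : ZMod q)‖ ≤
      x * Real.exp (-(Real.log x) ^ ((1 : ℝ) / 80))

/-- Module ApG (compare GP/Ap/ApF.lean, which can be copied). Uses: SwQ, Pnt. Proof. L = log x. Orthogonality: the number of primes p ≤ x, p ≡ 1 mod q, is (1/φ(q)) ∑_χ ∑_{p ≤ x} χ(p). χ = 1: the inner sum is ≥ npr x - 2 log q (at most 2 log q primes divide q).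
χ ≠ 1: let χ1 mod q1 be its primitive character, q1 ∣ q, q1 ≥ 2 (the conductor is not 1), log q1 ≤ log q ≤ y; Nex c3 y χ1 by the hypothesis; χ(p) = χ1(p) unless p ∣ q, so by SwQ the inner sum is ≤ x exp(-L^(1/80)) + 2 log q. There are φ(q) ≤ exp(L^(1/100)) characters.
By Pnt (A = 2) npr x ≥ (x - 2)/L - C x/L^2. φ(q) (x exp(-L^(1/80)) + 2 log q) ≤ x/L^2 for x large (exp(L^(1/100) - L^(1/80)) ≤ L^(-2)/2). Total ≥ (1/φ(q)) x/(2L) for x large. -/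
def ApGStmt : Prop :=
  ∀ c3 : ℝ, 0 < c3 → ∃ x0 : ℝ, ∀ (x y : ℝ) (q : ℕ), x0 ≤ x → 1 ≤ y → y ≤ (Real.log x) ^ ((1 : ℝ) / 100) →
    1 ≤ q → Real.log q ≤ y →
    (∀ (q1 : ℕ) [NeZero q1] (χ1 : DirichletCharacter ℂ q1), q1 ∣ q → 2 ≤ q1 → χ1.IsPrimitive → Nex c3 y χ1) →
    x / (2 * (q.totient : ℝ) * Real.log x) ≤
      (((Icc 1 ⌊x⌋₊).filter (fun p => p.Prime ∧ p ≡ 1 [MOD q])).card : ℝ)

/-- Module ApW (compare GP/Ap/ApZ.lean). Uses: ExG, ApG. Proof. ε1 = 1/200, c3 from ExG, x0 from ApG. Given w1, y0 from ExG. X large, y = (log X)^(1/200) ≥ max 1 y0, p0 from ExG. Let q ≥ 1, p0 ∤ q, log q ≤ y; x = q X + 1. The map b ↦ q b + 1 is a bijection from the b ∈ Icc 1 X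
with q b + 1 prime onto the primes p ≤ x, p ≡ 1 mod q (⌊x⌋ = q X + 1; p = 1 + q b with b ≥ 1 as 1 is not prime). y ≤ (log x)^(1/100) (log x ≥ log X ≥ 1). A divisor q1 of q is not divisible by p0 and log q1 ≤ log q ≤ y: ExG gives Nex c3 y χ1. ApG: the number is
≥ x/(2 φ(q) log x) ≥ q X/(2 φ(q) log x), and log x ≤ log X + log q + 1 ≤ 2 log X for X large. -/
def ApWStmt : Prop := ApVStmt

end Pool.Agent.Lib.MP_9f2731_nt.QL.Pw
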