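import Pool.Agent.Lib.MP_9f2731_nt.QL.Pw.Spec
import Pool.Agent.Lib.BV.Spl
import Pool.Agent.Lib.BV.Lpc

/-!
MP_9f2731_nt, QL/Pw, module ApG: primes 1 mod q, when no divisor of q is exceptional.
-/

namespace Pool.Agent.Lib.MP_9f2731_nt.QL.Pw

open Finset Pool.Agent.Lib.BV
open Pool.Agent.Lib.MP_9f2731_nt.GP.Ap Pool.Agent.Lib.MP_9f2731_nt.QL

/-- lower bound for the logarithmic integral -/
private theorem ApG_li {x : ℝ} (hx : 2 ≤ x) :
    (x - 2) / Real.log x ≤ Pool.Agent.Results.MP_00e23e_nt.li x := by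
  unfold Pool.Agent.Results.MP_00e23e_nt.li
  have hlx : 0 < Real.log x := Real.log_pos (by linarith)
  have h1 : ∫ _t in (2 : ℝ)..x, (Real.log x)⁻¹ ≤ ∫ t in (2 : ℝ)..x, (Real.log t)⁻¹ := by
    apply intervalIntegral.integral_mono_on hx (by simp)
    · apply ContinuousOn.intervalIntegrable
      rw [Set.uIcc_of_le hx]
      intro t ht
      have ht0 : 0 < Real.log t := Real.log_pos (by linarith [ht.1])
      exact ((Real.continuousAt_log (by linarith [ht.1])).inv₀ ht0.ne').continuousWithinAt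
    · intro t ht
      have ht0 : 0 < Real.log t := Real.log_pos (by linarith [ht.1])
      exact inv_anti₀ ht0 (Real.log_le_log (by linarith [ht.1]) ht.2)
  rw [intervalIntegral.integral_const, smul_eq_mul, ← div_eq_mul_inv] at h1
  exact h1

private theorem ApG_lim : ∃ y0 : ℝ, 2 ≤ y0 ∧ ∀ y : ℝ, y0 ≤ y → y ^ 800 * Real.exp (-y) ≤ 1 / 100 := by
  have h := Real.tendsto_pow_mul_exp_neg_atTop_nhds_zero 800
  have h2 := (h.eventually (gt_mem_nhds (show (0 : ℝ) < 1 / 100 by norm_num)))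
  obtain ⟨y0, hy0⟩ := Filter.eventually_atTop.1 h2
  exact ⟨max 2 y0, le_max_left _ _, fun y hy => (hy0 y ((le_max_right _ _).trans hy)).le⟩

/-- the elementary inequality -/
private theorem ApG_num (C : ℝ) : ∃ y0 : ℝ, 2 ≤ y0 ∧ ∀ y : ℝ, y0 ≤ y → ∀ φ l : ℝ, 1 ≤ φ →
    φ ≤ Real.exp (y ^ 4) → 0 ≤ l → l ≤ y ^ 4 →
    Real.exp (y ^ 400) / (2 * y ^ 400) ≤ (Real.exp (y ^ 400) - 2) / y ^ 400 -
      C * (Real.exp (y ^ 400) / (y ^ 400) ^ 2) - 2 * l -
      φ * (Real.exp (y ^ 400) * Real.exp (-(y ^ 5)) + 2 * l) := by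
  obtain ⟨y0, hy0, h0⟩ := ApG_lim
  refine ⟨max y0 (10 * |C|), hy0.trans (le_max_left _ _), ?_⟩
  intro y hy φ l hφ hφ2 hl hl2
  have hy1 : y0 ≤ y := (le_max_left _ _).trans hy
  have hyC : 10 * |C| ≤ y := (le_max_right _ _).trans hy
  have hy2 : 2 ≤ y := hy0.trans hy1
  have hy480 := h0 y hy1
  have hyp : 0 < y := by linarith
  have hy240 : 0 < y ^ 400 := by positivity
  have hyle : y ≤ y ^ 400 := le_self_pow₀ (by linarith) (by norm_num)
  set X := Real.exp (y ^ 400) with hX
  have hXp : 0 < X := Real.exp_pos _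
  set T := X / y ^ 400 with hT
  have hTp : 0 < T := by positivity
  have hbig : 40 ≤ X := by
    have h1 := Real.add_one_le_exp (y ^ 400)
    have h2 : (2 : ℝ) ^ 8 ≤ y ^ 8 := pow_le_pow_left₀ (by norm_num) hy2 8
    have h3 : y ^ 8 ≤ y ^ 400 := pow_le_pow_right₀ (by linarith) (by norm_num)
    have h4 : (2 : ℝ) ^ 8 = 256 := by norm_num
    rw [h4] at h2
    linarith
  have ea : 2 / y ^ 400 ≤ T / 20 := by
    rw [hT, div_div, div_le_div_iff₀ hy240 (by positivity)]
    nlinarith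
  have eb : C * (X / (y ^ 400) ^ 2) ≤ T / 10 := by
    have h1 : C * (X / (y ^ 400) ^ 2) = (C / y ^ 400) * T := by
      rw [hT]
      field_simp
    rw [h1]
    have h2 : C / y ^ 400 ≤ 1 / 10 := by
      rw [div_le_div_iff₀ hy240 (by norm_num)]
      have := le_abs_self C
      linarith
    have := mul_le_mul_of_nonneg_right h2 hTp.le
    linarith
  have hcube : y ≤ y ^ 4 := le_self_pow₀ (by linarith) (by norm_num)
  have h34 : 2 * y ^ 4 ≤ y ^ 5 := by
    have : y ^ 5 = y * y ^ 4 := by ring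
    rw [this]
    exact mul_le_mul_of_nonneg_right hy2 (by positivity)
  have h4240 : y ^ 5 ≤ y ^ 400 := pow_le_pow_right₀ (by linarith) (by norm_num)
  have e1 : Real.exp (y ^ 4) * Real.exp (-(y ^ 5)) ≤ Real.exp (-y) := by
    rw [← Real.exp_add]
    exact Real.exp_le_exp.2 (by linarith)
  have e2 : Real.exp (y ^ 4) ≤ Real.exp (-y) * X := by
    rw [hX, ← Real.exp_add]
    exact Real.exp_le_exp.2 (by linarith)
  have h240480 : y ^ 400 ≤ y ^ 800 := pow_le_pow_right₀ (by linarith) (by norm_num)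
  have h243480 : y ^ 404 ≤ y ^ 800 := pow_le_pow_right₀ (by linarith) (by norm_num)
  have hexp0 := Real.exp_pos (-y)
  have hφ0 : 0 ≤ φ := by linarith
  have ed : φ * (X * Real.exp (-(y ^ 5))) ≤ T / 10 := by
    have h1 : φ * (X * Real.exp (-(y ^ 5))) ≤ Real.exp (-y) * X := by
      calc φ * (X * Real.exp (-(y ^ 5))) ≤ Real.exp (y ^ 4) * (X * Real.exp (-(y ^ 5))) :=
            mul_le_mul_of_nonneg_right hφ2 (by positivity)
        _ = (Real.exp (y ^ 4) * Real.exp (-(y ^ 5))) * X := by ring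
        _ ≤ Real.exp (-y) * X := mul_le_mul_of_nonneg_right e1 hXp.le
    have h2 : Real.exp (-y) ≤ 1 / (10 * y ^ 400) := by
      rw [le_div_iff₀ (by positivity)]
      have : y ^ 400 * Real.exp (-y) ≤ y ^ 800 * Real.exp (-y) :=
        mul_le_mul_of_nonneg_right h240480 hexp0.le
      linarith
    have h3 := mul_le_mul_of_nonneg_right h2 hXp.le
    have h4 : 1 / (10 * y ^ 400) * X = T / 10 := by
      rw [hT]
      field_simp
    linarith
  have ee : 4 * (φ * l) ≤ T / 10 := by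
    have h1 : φ * l ≤ Real.exp (-y) * X * y ^ 4 := by
      calc φ * l ≤ Real.exp (y ^ 4) * y ^ 4 := mul_le_mul hφ2 hl2 hl (Real.exp_pos _).le
        _ ≤ (Real.exp (-y) * X) * y ^ 4 := mul_le_mul_of_nonneg_right e2 (by positivity)
    have h2 : Real.exp (-y) * y ^ 4 ≤ 1 / (40 * y ^ 400) := by
      rw [le_div_iff₀ (by positivity)]
      have : y ^ 404 * Real.exp (-y) ≤ y ^ 800 * Real.exp (-y) :=
        mul_le_mul_of_nonneg_right h243480 hexp0.le
      have h5 : Real.exp (-y) * y ^ 4 * (40 * y ^ 400) = 40 * (y ^ 404 * Real.exp (-y)) := by ring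
      linarith
    have h3 := mul_le_mul_of_nonneg_right h2 hXp.le
    have h4 : 1 / (40 * y ^ 400) * X = T / 40 := by
      rw [hT]
      field_simp
    have h5 : Real.exp (-y) * X * y ^ 4 = Real.exp (-y) * y ^ 4 * X := by ring
    linarith
  have hl3 : l ≤ φ * l := by
    have := mul_le_mul_of_nonneg_right hφ hl
    linarith
  have g1 : X / (2 * y ^ 400) = T / 2 := by
    rw [hT]
    field_simp
  have g2 : (X - 2) / y ^ 400 = T - 2 / y ^ 400 := by
    rw [hT, sub_div]
  have g3 : φ * (X * Real.exp (-(y ^ 5)) + 2 * l) = φ * (X * Real.exp (-(y ^ 5))) + 2 * (φ * l) := by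
    ring
  rw [g1, g2, g3]
  linarith

/-- the character sum of the indicator of the primes -/
private theorem ApG_cs (N : ℕ) {q : ℕ} (χ : DirichletCharacter ℂ q) :
    cs (fun n => if n.Prime then 1 else 0) N 1 χ =
      ∑ p ∈ (Icc 1 N).filter Nat.Prime, χ (p : ZMod q) := by
  rw [Spl_cs, sum_filter]
  refine sum_congr rfl fun n _ => ?_
  split_ifs <;> simp

theorem pApG (h1 : SwQStmt) (h2 : Pool.Agent.Lib.BV.PntStmt) : ApGStmt := by
  classical
  intro c3 hc3
  obtain ⟨x1, hx1⟩ := h1 c3 hc3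
  obtain ⟨C, hC, hP⟩ := h2 2 (by norm_num)
  obtain ⟨y0, hy0, hnum⟩ := ApG_num C
  refine ⟨max x1 (Real.exp (y0 ^ 400)), ?_⟩
  intro x Y q hx hY1 hY hq hqY hNex
  have hlq := hqY.trans hY
  have : NeZero q := ⟨by omega⟩
  have hxx1 : x1 ≤ x := (le_max_left _ _).trans hx
  have hxe : Real.exp (y0 ^ 400) ≤ x := (le_max_right _ _).trans hx
  have hx0 : 0 < x := lt_of_lt_of_le (Real.exp_pos _) hxe
  have hL : y0 ^ 400 ≤ Real.log x := (Real.le_log_iff_exp_le hx0).2 hxe
  have hy0p : 0 < y0 := by linarith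
  have hL0 : 0 < Real.log x := lt_of_lt_of_le (by positivity) hL
  set L := Real.log x with hLdef
  set y := L ^ ((1 : ℝ) / 400) with hy
  have hyy0 : y0 ≤ y := by
    have e1 : y0 = (y0 ^ 400) ^ ((1 : ℝ) / 400) := by
      rw [← Real.rpow_natCast, ← Real.rpow_mul hy0p.le]
      norm_num
    rw [e1]
    exact Real.rpow_le_rpow (by positivity) hL (by norm_num)
  have hyL : y ^ 400 = L := by
    rw [hy, ← Real.rpow_natCast, ← Real.rpow_mul hL0.le]; norm_num
  have hy3 : L ^ ((1 : ℝ) / 100) = y ^ 4 := by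
    rw [hy, ← Real.rpow_natCast, ← Real.rpow_mul hL0.le]; norm_num
  have hy4 : L ^ ((1 : ℝ) / 80) = y ^ 5 := by
    rw [hy, ← Real.rpow_natCast, ← Real.rpow_mul hL0.le]; norm_num
  have hxexp : x = Real.exp (y ^ 400) := by
    rw [hyL, hLdef, Real.exp_log hx0]
  have hx3 : 3 ≤ x := by
    have e1 := Real.add_one_le_exp (y0 ^ 400)
    have e2 : y0 ≤ y0 ^ 400 := le_self_pow₀ (by linarith) (by norm_num)
    linarith
  set l := Real.log (q : ℝ) with hl
  have hl0 : 0 ≤ l := Real.log_nonneg (by exact_mod_cast hq)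
  have hl3 : l ≤ y ^ 4 := by rw [← hy3]; exact hlq
  have hφ1 : (1 : ℝ) ≤ (q.totient : ℝ) := by
    exact_mod_cast Nat.totient_pos.2 (show 0 < q by omega)
  have hφ2 : (q.totient : ℝ) ≤ Real.exp (y ^ 4) := by
    have e1 : (q.totient : ℝ) ≤ q := by exact_mod_cast Nat.totient_le q
    have e2 : (q : ℝ) = Real.exp l := by
      rw [hl, Real.exp_log (by exact_mod_cast (show 0 < q by omega))]
    rw [e2] at e1
    exact e1.trans (Real.exp_le_exp.2 hl3)
  have key := hnum y hyy0 q.totient l hφ1 hφ2 hl0 hl3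
  rw [← hxexp, hyL] at key
  set N := ⌊x⌋₊ with hN
  set f : ℕ → ℂ := fun n => if n.Prime then 1 else 0 with hf
  have hcount : cls f N q 1 =
      ((((Icc 1 N).filter (fun p => p.Prime ∧ p ≡ 1 [MOD q])).card : ℝ) : ℂ) := by
    unfold cls
    rw [hf, ← sum_filter, filter_filter, sum_const, nsmul_eq_mul, mul_one]
    rw [Complex.ofReal_natCast]
    congr 2
    ext p
    simp only [mem_filter]
    tauto
  have hall := Spl_all f N q 1 hq (Nat.coprime_one_left q)
  have hone : ((1 : ℕ) : ZMod q)⁻¹ = 1 := by simp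
  have hchar : ∀ χ : DirichletCharacter ℂ q, χ (((1 : ℕ) : ZMod q)⁻¹) * cs f N 1 χ =
      ∑ p ∈ (Icc 1 N).filter Nat.Prime, χ (p : ZMod q) := by
    intro χ
    rw [hone, map_one, one_mul]
    exact ApG_cs N χ
  rw [sum_congr rfl (fun χ _ => hchar χ), hcount] at hall
  set cnt : ℝ := (((Icc 1 N).filter (fun p => p.Prime ∧ p ≡ 1 [MOD q])).card : ℝ) with hcnt
  set E : ℝ := x * Real.exp (-(y ^ 5)) + 2 * l with hE
  have hE0 : 0 ≤ E := by positivity
  have hnt : ∀ χ : DirichletCharacter ℂ q, χ ≠ 1 →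
      ‖∑ p ∈ (Icc 1 N).filter Nat.Prime, χ (p : ZMod q)‖ ≤ E := by
    intro χ hχ
    have c0 := χ.conductor_ne_zero
    have c1 : χ.conductor ≠ 1 := fun h => hχ (DirichletCharacter.eq_one_iff_conductor_eq_one.2 h)
    have cd : χ.conductor ∣ q := χ.conductor_dvd_level
    have c2 : NeZero χ.conductor := ⟨c0⟩
    have e1 := hx1 x Y χ.conductor χ.primitiveCharacter hxx1 hY1 hY (by omega) (by
        refine le_trans ?_ hqY
        apply Real.log_le_log
        · exact_mod_cast Nat.pos_of_ne_zero c0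
        · exact_mod_cast Nat.le_of_dvd (by omega) cd) χ.primitiveCharacter_isPrimitive
      (hNex χ.conductor χ.primitiveCharacter cd (by omega) χ.primitiveCharacter_isPrimitive)
    have e2 := tLpc q N χ hq
    have e3 := norm_sub_norm_le (∑ p ∈ (Icc 1 N).filter Nat.Prime, χ (p : ZMod q))
      (∑ p ∈ (Icc 1 N).filter Nat.Prime, χ.primitiveCharacter (p : ZMod χ.conductor))
    rw [← hLdef, hy4] at e1
    linarith
  have htriv : npr x - 2 * l ≤ (∑ p ∈ (Icc 1 N).filter Nat.Prime, (1 : DirichletCharacter ℂ q) (p : ZMod q)).re := by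
    have e1 : ∑ p ∈ (Icc 1 N).filter Nat.Prime, (1 : DirichletCharacter ℂ q) (p : ZMod q) =
        (((((Icc 1 N).filter Nat.Prime).filter (fun p => p.Coprime q)).card : ℝ) : ℂ) := by
      rw [card_filter, Nat.cast_sum]
      push_cast
      refine sum_congr rfl fun n _ => ?_
      by_cases h : n.Coprime q
      · rw [if_pos h, MulChar.one_apply ((ZMod.isUnit_iff_coprime n q).2 h)]
        norm_num
      · rw [if_neg h, MulChar.map_nonunit _ (fun h' => h ((ZMod.isUnit_iff_coprime n q).1 h'))]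
        norm_num
    rw [e1, Complex.ofReal_re]
    have e2 : ((Icc 1 N).filter Nat.Prime).card ≤
        (((Icc 1 N).filter Nat.Prime).filter (fun p => p.Coprime q)).card + q.primeFactors.card := by
      rw [← card_filter_add_card_filter_not (s := (Icc 1 N).filter Nat.Prime) (fun p => p.Coprime q)]
      refine Nat.add_le_add_left (card_le_card ?_) _
      intro p hp
      rw [mem_filter, mem_filter] at hp
      rw [Nat.mem_primeFactors]
      refine ⟨hp.1.2, ?_, by omega⟩
      by_contra h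
      exact hp.2 ((Nat.Prime.coprime_iff_not_dvd hp.1.2).2 h)
    have e3 : (q.primeFactors.card : ℝ) ≤ 2 * l := Pool.Agent.Lib.EH.card_primeFactors_le hq
    have e4 : (((Icc 1 N).filter Nat.Prime).card : ℝ) ≤
        ((((Icc 1 N).filter Nat.Prime).filter (fun p => p.Coprime q)).card : ℝ) + q.primeFactors.card := by
      exact_mod_cast e2
    have e5 : npr x = (((Icc 1 N).filter Nat.Prime).card : ℝ) := rfl
    rw [e5]
    linarith
  have hmain : npr x - 2 * l - (q.totient : ℝ) * E ≤ (q.totient : ℝ) * cnt := by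
    have e1 : (q.totient : ℝ) * cnt = (∑ χ : DirichletCharacter ℂ q,
        ∑ p ∈ (Icc 1 N).filter Nat.Prime, χ (p : ZMod q)).re := by
      rw [hall]
      rw [← Complex.ofReal_natCast, ← Complex.ofReal_mul, Complex.ofReal_re]
    rw [e1, ← Finset.add_sum_erase _ _ (mem_univ (1 : DirichletCharacter ℂ q)), Complex.add_re]
    have e2 : ‖∑ χ ∈ univ.erase (1 : DirichletCharacter ℂ q),
        ∑ p ∈ (Icc 1 N).filter Nat.Prime, χ (p : ZMod q)‖ ≤ (q.totient : ℝ) * E := by
      refine (norm_sum_le _ _).trans ?_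
      refine (sum_le_sum (fun χ hχ => hnt χ (ne_of_mem_erase hχ))).trans ?_
      rw [sum_const, nsmul_eq_mul]
      apply mul_le_mul_of_nonneg_right _ hE0
      have e3 : (univ.erase (1 : DirichletCharacter ℂ q)).card ≤ q.totient := by
        refine (card_erase_le).trans ?_
        rw [card_univ, ← Nat.card_eq_fintype_card, DirichletCharacter.card_eq_totient_of_hasEnoughRootsOfUnity]
      exact_mod_cast e3
    have e4 := (abs_le.1 (Complex.abs_re_le_norm (∑ χ ∈ univ.erase (1 : DirichletCharacter ℂ q),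
        ∑ p ∈ (Icc 1 N).filter Nat.Prime, χ (p : ZMod q)))).1
    linarith
  have hpnt := (abs_le.1 (hP x hx3)).1
  have hli := ApG_li (x := x) (by linarith)
  rw [← hLdef] at hpnt hli
  rw [show L ^ (2 : ℝ) = L ^ 2 from by rw [← Real.rpow_natCast]; norm_num] at hpnt
  have hfin : x / (2 * L) ≤ (q.totient : ℝ) * cnt := by linarith
  have hφ0 : 0 < (q.totient : ℝ) := by linarith
  rw [div_le_iff₀ (by positivity)]
  rw [div_le_iff₀ (by positivity)] at hfin
  calc x ≤ (q.totient : ℝ) * cnt * (2 * L) := hfin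
    _ = cnt * (2 * (q.totient : ℝ) * L) := by ring

end Pool.Agent.Lib.MP_9f2731_nt.QL.Pw
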