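import Pool.Agent.Lib.MP_9f2731_nt.QL.Pw.Spec

/-!
MP_9f2731_nt, QL/Pw/SwQ: prime sums over a character, final bound (helper84, after GP/Ap/SwP)
-/

namespace Pool.Agent.Lib.MP_9f2731_nt.QL.Pw

open Finset Pool.Agent.Lib.BV
open Pool.Agent.Lib.MP_9f2731_nt.GP.Ap
open Pool.Agent.Lib.MP_9f2731_nt.QL

private lemma SwQ_rpow {L : ℝ} (hL : 0 ≤ L) (n : ℕ) (r : ℝ) (hr : r = 1 / 400 * (n : ℝ)) :
    L ^ r = (L ^ ((1 : ℝ) / 400)) ^ n := by
  rw [hr, Real.rpow_mul hL, Real.rpow_natCast]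

private lemma SwQ_exp {y : ℝ} (hy : 0 ≤ y) : y ^ 2 / 2 ≤ Real.exp y := by
  have := Real.quadratic_le_exp_of_nonneg hy
  linarith

/-- the main factor -/
private lemma SwQ_main {D K y i q : ℝ} (hD : 1 ≤ D) (hK : K = 4 ^ 31 * 2 ^ 28) (hy : 3 * D * K ≤ y)
    (hy1 : 1 ≤ y) (hi0 : 0 ≤ i) (hi : i ≤ 4 * y ^ 5) (hq0 : 0 ≤ q) (hq : q ≤ 2 * y ^ 4) :
    D * i ^ 31 * q ^ 28 / y ^ 400 ≤ Real.exp (-1) := by
  have hy0 : 0 < y := by linarith
  rw [div_le_iff₀ (by positivity)]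
  have he : (1 : ℝ) / 3 ≤ Real.exp (-1) := by
    rw [Real.exp_neg, one_div]
    apply inv_anti₀ (Real.exp_pos 1)
    have := Real.exp_one_lt_d9
    linarith
  have h1 : D * i ^ 31 * q ^ 28 ≤ D * (4 * y ^ 5) ^ 31 * (2 * y ^ 4) ^ 28 := by gcongr
  have h2 : D * (4 * y ^ 5) ^ 31 * (2 * y ^ 4) ^ 28 = D * K * y ^ 267 := by
    rw [hK]; ring
  have h3 : y ≤ y ^ 133 := le_self_pow₀ hy1 (by norm_num)
  have h4 : 3 * D * K ≤ y ^ 133 := hy.trans h3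
  have h5 : D * K * y ^ 267 ≤ 1 / 3 * y ^ 400 := by
    have h6 : y ^ 400 = y ^ 133 * y ^ 267 := by ring
    rw [h6]
    have h7 : (0 : ℝ) ≤ y ^ 267 := by positivity
    nlinarith [mul_le_mul_of_nonneg_right h4 h7]
  calc D * i ^ 31 * q ^ 28 ≤ D * K * y ^ 267 := by rw [← h2]; exact h1
    _ ≤ 1 / 3 * y ^ 400 := h5
    _ ≤ Real.exp (-1) * y ^ 400 := by gcongr

theorem pSwQ (h1 : SwGStmt) : SwQStmt := by
  intro c3 hc3
  obtain ⟨D, hD, hS⟩ := h1 c3 hc3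
  obtain ⟨K, hK⟩ : ∃ K : ℝ, K = 4 ^ 31 * 2 ^ 28 := ⟨_, rfl⟩
  have hK64 : 64 ≤ K := by rw [hK]; norm_num
  have hY64 : 64 * D ≤ 3 * D * K := by nlinarith
  refine ⟨Real.exp ((3 * D * K) ^ 400), ?_⟩
  intro x z q hq0 χ hx hz1 hzL hq hlog hχ hN
  have hx0 : 0 < x := (Real.exp_pos _).trans_le hx
  obtain ⟨L, hL⟩ : ∃ L : ℝ, L = Real.log x := ⟨_, rfl⟩
  have hLx : Real.exp L = x := by rw [hL, Real.exp_log hx0]
  have hLge : (3 * D * K) ^ 400 ≤ L := by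
    rw [hL, Real.le_log_iff_exp_le hx0]; exact hx
  have hY0 : 0 < 3 * D * K := by linarith
  have hL0 : 0 < L := lt_of_lt_of_le (by positivity) hLge
  obtain ⟨y, hy⟩ : ∃ y : ℝ, y = L ^ ((1 : ℝ) / 400) := ⟨_, rfl⟩
  have hy400 : L = y ^ 400 := by
    rw [hy, ← SwQ_rpow hL0.le 400 1 (by norm_num), Real.rpow_one]
  have hy5 : L ^ ((1 : ℝ) / 80) = y ^ 5 := by
    rw [hy]; exact SwQ_rpow hL0.le 5 _ (by norm_num)
  have hy4 : L ^ ((1 : ℝ) / 100) = y ^ 4 := by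
    rw [hy]; exact SwQ_rpow hL0.le 4 _ (by norm_num)
  have hypos : 0 < y := by rw [hy]; exact Real.rpow_pos_of_pos hL0 _
  have hyY : 3 * D * K ≤ y := by
    have : (3 * D * K) ^ 400 ≤ y ^ 400 := by rw [← hy400]; exact hLge
    exact le_of_pow_le_pow_left₀ (by norm_num) hypos.le this
  have hy64 : 64 * D ≤ y := hY64.trans hyY
  have hy1 : 1 ≤ y := by linarith
  have hyL : y ≤ L := by rw [hy400]; exact le_self_pow₀ hy1 (by norm_num)
  rw [← hL] at hzL ⊢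
  rw [hy4] at hzL
  rw [hy5]
  -- the number of logarithms
  obtain ⟨i, hi⟩ : ∃ i : ℕ, i = ⌈3 * y ^ 5⌉₊ := ⟨_, rfl⟩
  have hy5p : 1 ≤ y ^ 5 := one_le_pow₀ hy1
  have hi1 : (3 : ℝ) * y ^ 5 ≤ i := by rw [hi]; exact Nat.le_ceil _
  have hi2 : (i : ℝ) ≤ 4 * y ^ 5 := by
    have : (i : ℝ) < 3 * y ^ 5 + 1 := by rw [hi]; exact Nat.ceil_lt_add_one (by positivity)
    linarith
  have hi3 : 1 ≤ i := by
    have : (1 : ℝ) ≤ i := by linarith
    exact_mod_cast this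
  have hy4p : 1 ≤ y ^ 4 := one_le_pow₀ hy1
  have hA := SwQ_main (q := 1 + z) hD hK hyY hy1 (by positivity) hi2 (by linarith)
    (by linarith)
  have hx4 : 4 ≤ x := by
    rw [← hLx]
    have := Real.add_one_le_exp L
    linarith
  have hmain := hS i z q χ x hi3 hz1 hq hlog hχ hN hx4
  refine hmain.trans ?_
  rw [← hL]
  have hB : (D * (i : ℝ) ^ 31 * (1 + z) ^ 28 / L) ^ i ≤ Real.exp (-(3 * y ^ 5)) := by
    rw [← hy400] at hA
    calc (D * (i : ℝ) ^ 31 * (1 + z) ^ 28 / L) ^ i ≤ Real.exp (-1) ^ i := by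
          apply pow_le_pow_left₀ _ hA
          positivity
      _ = Real.exp (-(i : ℝ)) := by
          rw [← Real.exp_nat_mul]; congr 1; ring
      _ ≤ Real.exp (-(3 * y ^ 5)) := Real.exp_le_exp.2 (by linarith)
  -- first term
  have hT1 : D * (x * (D * (i : ℝ) ^ 31 * (1 + z) ^ 28 / L) ^ i)
      ≤ x * Real.exp (-y ^ 5) / 2 := by
    have e1 : Real.exp (-(3 * y ^ 5)) = Real.exp (-y ^ 5) * Real.exp (-(2 * y ^ 5)) := by
      rw [← Real.exp_add]; congr 1; ring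
    have e2 : D * Real.exp (-(2 * y ^ 5)) ≤ 1 / 2 := by
      rw [Real.exp_neg, ← div_eq_mul_inv, div_le_iff₀ (Real.exp_pos _)]
      have := Real.add_one_le_exp (2 * y ^ 5)
      have h7 : y ≤ y ^ 5 := le_self_pow₀ hy1 (by norm_num)
      linarith
    calc D * (x * (D * (i : ℝ) ^ 31 * (1 + z) ^ 28 / L) ^ i)
        ≤ D * (x * Real.exp (-(3 * y ^ 5))) := by gcongr
      _ = x * Real.exp (-y ^ 5) * (D * Real.exp (-(2 * y ^ 5))) := by rw [e1]; ring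
      _ ≤ x * Real.exp (-y ^ 5) * (1 / 2) := by gcongr
      _ = x * Real.exp (-y ^ 5) / 2 := by ring
  -- second term
  have hT2 : D * (Real.sqrt x * L) ≤ x * Real.exp (-y ^ 5) / 2 := by
    have e1 : Real.sqrt x = Real.exp (L / 2) := by
      rw [← hLx, ← Real.exp_half]
    have e2 : y ^ 5 ≤ L / 4 := by
      have h8 : y ^ 400 = y ^ 5 * y ^ 395 := by ring
      have h9 : y ≤ y ^ 395 := le_self_pow₀ hy1 (by norm_num)
      have h10 : 4 ≤ y ^ 395 := by linarith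
      rw [hy400, h8]
      nlinarith
    have e3 : 2 * D * L ≤ Real.exp (L / 4) := by
      have h11 := SwQ_exp (y := L / 4) (by positivity)
      have h12 : 64 * D ≤ L := hy64.trans hyL
      nlinarith
    have e4 : x * Real.exp (-y ^ 5) = Real.exp (L / 2) * Real.exp (L / 2 - y ^ 5) := by
      rw [← hLx, ← Real.exp_add, ← Real.exp_add]; congr 1; ring
    have e5 : Real.exp (L / 4) ≤ Real.exp (L / 2 - y ^ 5) := Real.exp_le_exp.2 (by linarith)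
    rw [e1, e4]
    have h13 : 0 < Real.exp (L / 2) := Real.exp_pos _
    have h14 : 2 * D * L ≤ Real.exp (L / 2 - y ^ 5) := e3.trans e5
    nlinarith [mul_le_mul_of_nonneg_left h14 h13.le]
  calc D * (x * (D * (i : ℝ) ^ 31 * (1 + z) ^ 28 / L) ^ i + Real.sqrt x * L)
      = D * (x * (D * (i : ℝ) ^ 31 * (1 + z) ^ 28 / L) ^ i)
        + D * (Real.sqrt x * L) := by ring
    _ ≤ x * Real.exp (-y ^ 5) / 2 + x * Real.exp (-y ^ 5) / 2 := add_le_add hT1 hT2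
    _ = x * Real.exp (-y ^ 5) := by ring

end Pool.Agent.Lib.MP_9f2731_nt.QL.Pw
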